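import Mathlib

/-! Averages over the permutations that extend a given partial permutation. -/

namespace Pool.Agent.H.MP_d03aa7_co

open Finset Equiv

variable {V : Type*} [Fintype V] [DecidableEq V]

/-- permutations that agree with `π₀` on `P` -/
def Om (π₀ : Perm V) (P : Finset V) : Finset (Perm V) :=
  univ.filter (fun π => ∀ c ∈ P, π c = π₀ c)

/-- free values -/
def Fr (π₀ : Perm V) (P : Finset V) : Finset V := univ \ P.image π₀

lemma mem_Om {π₀ : Perm V} {P : Finset V} {π : Perm V} : π ∈ Om π₀ P ↔ ∀ c ∈ P, π c = π₀ c := by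
  simp [Om]

lemma mem_Fr {π₀ : Perm V} {P : Finset V} {z : V} : z ∈ Fr π₀ P ↔ ∀ c ∈ P, π₀ c ≠ z := by
  simp [Fr]

lemma card_Fr (π₀ : Perm V) (P : Finset V) : (Fr π₀ P).card = Fintype.card V - P.card := by
  unfold Fr
  rw [card_sdiff_of_subset (subset_univ _), card_image_of_injective _ π₀.injective, card_univ]

lemma Om_maps {π₀ : Perm V} {P : Finset V} {π : Perm V} (h : π ∈ Om π₀ P) {b : V} (hb : b ∉ P) :
    π b ∈ Fr π₀ P := by
  rw [mem_Fr]
  intro c hc h2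
  rw [← (mem_Om.mp h) c hc] at h2
  exact hb (π.injective h2 ▸ hc)

lemma Om_nonempty (π₀ : Perm V) (P : Finset V) : (Om π₀ P).Nonempty := ⟨π₀, mem_Om.mpr (fun _ _ => rfl)⟩

lemma Om_mul {π₀ : Perm V} {P : Finset V} {π σ : Perm V} (h : π ∈ Om π₀ P)
    (hσ : ∀ c ∈ P, σ (π₀ c) = π₀ c) : σ * π ∈ Om π₀ P := by
  rw [mem_Om] at *
  intro c hc
  rw [Perm.mul_apply, h c hc, hσ c hc]

lemma swap_fix {π₀ : Perm V} {P : Finset V} {z z' : V} (hz : z ∈ Fr π₀ P) (hz' : z' ∈ Fr π₀ P) :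
    ∀ c ∈ P, swap z z' (π₀ c) = π₀ c := by
  intro c hc
  rw [mem_Fr] at hz hz'
  exact swap_apply_of_ne_of_ne (hz c hc) (hz' c hc)

lemma single_eq {π₀ : Perm V} {P : Finset V} {b z z' : V} (hz : z ∈ Fr π₀ P) (hz' : z' ∈ Fr π₀ P) :
    ((Om π₀ P).filter (fun π => π b = z)).card ≤ ((Om π₀ P).filter (fun π => π b = z')).card := by
  apply card_le_card_of_injOn (fun π => swap z z' * π)
  · intro π hπ
    simp only [coe_filter, Set.mem_ofPred_eq] at hπ ⊢
    exact ⟨Om_mul hπ.1 (swap_fix hz hz'), by rw [Perm.mul_apply, hπ.2, swap_apply_left]⟩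
  · intro a _ b _ h
    exact mul_left_cancel h

lemma single_count {π₀ : Perm V} {P : Finset V} {b z : V} (hb : b ∉ P) (hz : z ∈ Fr π₀ P) :
    (Fr π₀ P).card * ((Om π₀ P).filter (fun π => π b = z)).card = (Om π₀ P).card := by
  have h1 : (Om π₀ P).card = ∑ z' ∈ Fr π₀ P, ((Om π₀ P).filter (fun π => π b = z')).card :=
    card_eq_sum_card_fiberwise (fun π hπ => Om_maps hπ hb)
  rw [h1, Finset.sum_congr rfl (fun z' hz' => le_antisymm (single_eq (b := b) hz' hz) (single_eq hz hz'))]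
  simp

lemma pair_le {π₀ : Perm V} {P : Finset V} {b b' z z' w w' : V}
    (hz : z ∈ Fr π₀ P) (hz' : z' ∈ Fr π₀ P) (hw : w ∈ Fr π₀ P) (hw' : w' ∈ Fr π₀ P)
    (hzz : z ≠ z') (hww : w ≠ w') :
    ((Om π₀ P).filter (fun π => π b = z ∧ π b' = z')).card ≤
      ((Om π₀ P).filter (fun π => π b = w ∧ π b' = w')).card := by
  have hu : swap z w z' ∈ Fr π₀ P := by
    rw [mem_Fr]
    intro c hc h
    have h2 := swap_fix hz hw c hc
    have h3 : swap z w (π₀ c) = swap z w z' := by rw [h2, h]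
    have h4 := (swap z w).injective h3
    rw [mem_Fr] at hz'
    exact hz' c hc h4
  have hne : swap z w z' ≠ w := by
    intro h
    have : swap z w z' = swap z w z := by rw [h, swap_apply_left]
    exact hzz ((swap z w).injective this).symm
  apply card_le_card_of_injOn (fun π => swap (swap z w z') w' * (swap z w * π))
  · intro π hπ
    simp only [coe_filter, Set.mem_ofPred_eq] at hπ ⊢
    refine ⟨Om_mul (Om_mul hπ.1 (swap_fix hz hw)) (swap_fix hu hw'), ?_, ?_⟩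
    · rw [Perm.mul_apply, Perm.mul_apply, hπ.2.1, swap_apply_left,
        swap_apply_of_ne_of_ne hne.symm hww]
    · rw [Perm.mul_apply, Perm.mul_apply, hπ.2.2, swap_apply_left]
  · intro a _ b _ h
    exact mul_left_cancel (mul_left_cancel h)

lemma pair_count {π₀ : Perm V} {P : Finset V} {b b' z z' : V} (hb : b ∉ P) (hb' : b' ∉ P)
    (hbb : b ≠ b') (hz : z ∈ Fr π₀ P) (hz' : z' ∈ Fr π₀ P) (hzz : z ≠ z') :
    (Fr π₀ P).offDiag.card * ((Om π₀ P).filter (fun π => π b = z ∧ π b' = z')).card =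
      (Om π₀ P).card := by
  have h1 : (Om π₀ P).card = ∑ q ∈ (Fr π₀ P).offDiag,
      ((Om π₀ P).filter (fun π => (π b, π b') = q)).card :=
    card_eq_sum_card_fiberwise (fun π hπ => by
      simp only [coe_offDiag, Set.mem_offDiag, mem_coe]
      exact ⟨Om_maps hπ hb, Om_maps hπ hb', fun h => hbb (π.injective h)⟩)
  have h2 : ∀ q ∈ (Fr π₀ P).offDiag, ((Om π₀ P).filter (fun π => (π b, π b') = q)).card =
      ((Om π₀ P).filter (fun π => π b = z ∧ π b' = z')).card := by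
    intro q hq
    rw [mem_offDiag] at hq
    have e : (Om π₀ P).filter (fun π => (π b, π b') = q) =
        (Om π₀ P).filter (fun π => π b = q.1 ∧ π b' = q.2) := by
      apply filter_congr
      intro π _
      exact Prod.ext_iff
    rw [e]
    exact le_antisymm (pair_le hq.1 hq.2.1 hz hz' hq.2.2 hzz) (pair_le hz hz' hq.1 hq.2.1 hzz hq.2.2)
  rw [h1, Finset.sum_congr rfl h2]
  simp

/-- average of a function of one value -/
lemma sum_single {π₀ : Perm V} {P : Finset V} {b : V} (hb : b ∉ P) (g : V → ℝ) :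
    (Fr π₀ P).card * ∑ π ∈ Om π₀ P, g (π b) = (Om π₀ P).card * ∑ z ∈ Fr π₀ P, g z := by
  have h1 : ∑ π ∈ Om π₀ P, g (π b) =
      ∑ z ∈ Fr π₀ P, ∑ π ∈ (Om π₀ P).filter (fun π => π b = z), g (π b) :=
    (sum_fiberwise_of_maps_to (fun π hπ => Om_maps hπ hb) _).symm
  rw [h1, mul_sum, mul_sum]
  apply Finset.sum_congr rfl
  intro z hz
  have h2 : ∑ π ∈ (Om π₀ P).filter (fun π => π b = z), g (π b) =
      ((Om π₀ P).filter (fun π => π b = z)).card * g z := by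
    rw [Finset.sum_congr rfl (fun π hπ => by rw [(mem_filter.mp hπ).2])]
    simp
  rw [h2, ← mul_assoc, ← Nat.cast_mul, single_count hb hz]

/-- average of a function of two values -/
lemma sum_pair {π₀ : Perm V} {P : Finset V} {b b' : V} (hb : b ∉ P) (hb' : b' ∉ P) (hbb : b ≠ b')
    (g : V → V → ℝ) :
    (Fr π₀ P).offDiag.card * ∑ π ∈ Om π₀ P, g (π b) (π b') =
      (Om π₀ P).card * ∑ q ∈ (Fr π₀ P).offDiag, g q.1 q.2 := by
  have h1 : ∑ π ∈ Om π₀ P, g (π b) (π b') =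
      ∑ q ∈ (Fr π₀ P).offDiag, ∑ π ∈ (Om π₀ P).filter (fun π => (π b, π b') = q), g (π b) (π b') :=
    (sum_fiberwise_of_maps_to (fun π hπ => by
      rw [mem_offDiag]
      exact ⟨Om_maps hπ hb, Om_maps hπ hb', fun h => hbb (π.injective h)⟩) _).symm
  rw [h1, mul_sum, mul_sum]
  apply Finset.sum_congr rfl
  intro q hq
  rw [mem_offDiag] at hq
  have e : (Om π₀ P).filter (fun π => (π b, π b') = q) =
      (Om π₀ P).filter (fun π => π b = q.1 ∧ π b' = q.2) := by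
    apply filter_congr
    intro π _
    exact Prod.ext_iff
  have h2 : ∑ π ∈ (Om π₀ P).filter (fun π => (π b, π b') = q), g (π b) (π b') =
      ((Om π₀ P).filter (fun π => (π b, π b') = q)).card * g q.1 q.2 := by
    rw [Finset.sum_congr rfl (g := fun _ => g q.1 q.2) (fun π hπ => by
      have := (mem_filter.mp hπ).2
      rw [← this])]
    simp
  rw [h2, e, ← mul_assoc, ← Nat.cast_mul, pair_count hb hb' hbb hq.1 hq.2.1 hq.2.2]

lemma sum_single_le {π₀ : Perm V} {P : Finset V} {b : V} (hb : b ∉ P) (g : V → ℝ)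
    (hg : ∀ z, 0 ≤ g z) {M : ℝ} (hM : 0 < M) (hMc : M ≤ (Fr π₀ P).card) :
    ∑ π ∈ Om π₀ P, g (π b) ≤ (Om π₀ P).card * ((∑ z, g z) / M) := by
  have h := sum_single (π₀ := π₀) hb g
  have h1 : ∑ z ∈ Fr π₀ P, g z ≤ ∑ z, g z :=
    sum_le_sum_of_subset_of_nonneg (subset_univ _) (fun z _ _ => hg z)
  have h2 : 0 ≤ ∑ π ∈ Om π₀ P, g (π b) := sum_nonneg (fun π _ => hg _)
  have h3 : M * ∑ π ∈ Om π₀ P, g (π b) ≤ (Om π₀ P).card * ∑ z, g z :=
    calc M * ∑ π ∈ Om π₀ P, g (π b) ≤ (Fr π₀ P).card * ∑ π ∈ Om π₀ P, g (π b) :=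
          mul_le_mul_of_nonneg_right hMc h2
      _ = (Om π₀ P).card * ∑ z ∈ Fr π₀ P, g z := h
      _ ≤ (Om π₀ P).card * ∑ z, g z := mul_le_mul_of_nonneg_left h1 (Nat.cast_nonneg _)
  rw [mul_div_assoc', le_div_iff₀ hM]
  linarith

lemma sum_pair_le {π₀ : Perm V} {P : Finset V} {b b' : V} (hb : b ∉ P) (hb' : b' ∉ P) (hbb : b ≠ b')
    (g : V → V → ℝ) (hg : ∀ z z', 0 ≤ g z z') {M : ℝ} (hM : 0 < M)
    (hMc : M ≤ (Fr π₀ P).offDiag.card) :
    ∑ π ∈ Om π₀ P, g (π b) (π b') ≤ (Om π₀ P).card * ((∑ z, ∑ z', g z z') / M) := by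
  have h := sum_pair (π₀ := π₀) hb hb' hbb g
  have h1 : ∑ q ∈ (Fr π₀ P).offDiag, g q.1 q.2 ≤ ∑ z, ∑ z', g z z' := by
    rw [← Fintype.sum_prod_type' (f := g)]
    exact sum_le_sum_of_subset_of_nonneg (subset_univ _) (fun z _ _ => hg _ _)
  have h2 : 0 ≤ ∑ π ∈ Om π₀ P, g (π b) (π b') := sum_nonneg (fun π _ => hg _ _)
  have h3 : M * ∑ π ∈ Om π₀ P, g (π b) (π b') ≤ (Om π₀ P).card * ∑ z, ∑ z', g z z' :=
    calc M * ∑ π ∈ Om π₀ P, g (π b) (π b') ≤
          (Fr π₀ P).offDiag.card * ∑ π ∈ Om π₀ P, g (π b) (π b') :=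
          mul_le_mul_of_nonneg_right hMc h2
      _ = (Om π₀ P).card * ∑ q ∈ (Fr π₀ P).offDiag, g q.1 q.2 := h
      _ ≤ (Om π₀ P).card * ∑ z, ∑ z', g z z' := mul_le_mul_of_nonneg_left h1 (Nat.cast_nonneg _)
  rw [mul_div_assoc', le_div_iff₀ hM]
  linarith

end Pool.Agent.H.MP_d03aa7_co
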