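import Mathlib
import Pool.Agent.H.MP_d03aa7_co.PermAvg

/-! Averages of quadratic functionals of a random completion. -/

namespace Pool.Agent.H.MP_d03aa7_co

open Finset Equiv Classical

variable {V : Type*} [Fintype V] [DecidableEq V]

lemma sum_split (P : Finset V) (f : V → ℝ) : ∑ b, f b = ∑ b ∈ P, f b + ∑ b ∈ Pᶜ, f b :=
  (sum_add_sum_compl P f).symm

theorem pairE {π₀ : Perm V} {P : Finset V} {κ : V → V → ℝ} (hκ : ∀ b b', 0 ≤ κ b b')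
    (hκd : ∀ b, κ b b = 0) {g : V → V → ℝ} (hg : ∀ z z', 0 ≤ g z z') {M1 M2 : ℝ}
    (hM1 : 0 < M1) (hM1' : M1 ≤ (Fr π₀ P).card) (hM2 : 0 < M2) (hM2' : M2 ≤ (Fr π₀ P).offDiag.card) :
    ∑ π ∈ Om π₀ P, ∑ b, ∑ b', κ b b' * g (π b) (π b') ≤
      (Om π₀ P).card * (∑ b ∈ P, ∑ b' ∈ P, κ b b' * g (π₀ b) (π₀ b') +
        ∑ b ∈ P, ∑ b' ∈ Pᶜ, κ b b' * ((∑ z, g (π₀ b) z) / M1) +
        ∑ b ∈ Pᶜ, ∑ b' ∈ P, κ b b' * ((∑ z, g z (π₀ b')) / M1) +
        ∑ b ∈ Pᶜ, ∑ b' ∈ Pᶜ, κ b b' * ((∑ z, ∑ z', g z z') / M2)) := by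
  set N : ℝ := ((Om π₀ P).card : ℝ) with hN
  have h1 : ∀ b ∈ P, ∀ b' ∈ P, ∑ π ∈ Om π₀ P, κ b b' * g (π b) (π b') ≤
      N * (κ b b' * g (π₀ b) (π₀ b')) := by
    intro b hb b' hb'
    rw [Finset.sum_congr rfl (g := fun _ => κ b b' * g (π₀ b) (π₀ b')) (fun π hπ => by
      rw [mem_Om.mp hπ b hb, mem_Om.mp hπ b' hb'])]
    rw [sum_const, nsmul_eq_mul]
  have h2 : ∀ b ∈ P, ∀ b' ∈ Pᶜ, ∑ π ∈ Om π₀ P, κ b b' * g (π b) (π b') ≤
      N * (κ b b' * ((∑ z, g (π₀ b) z) / M1)) := by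
    intro b hb b' hb'
    rw [← mul_sum, Finset.sum_congr rfl (g := fun π => g (π₀ b) (π b')) (fun π hπ => by
      rw [mem_Om.mp hπ b hb])]
    have := sum_single_le (π₀ := π₀) (P := P) (b := b') (by simpa using hb') (fun z => g (π₀ b) z)
      (fun z => hg _ _) hM1 hM1'
    calc _ ≤ κ b b' * (N * ((∑ z, g (π₀ b) z) / M1)) := mul_le_mul_of_nonneg_left this (hκ _ _)
      _ = _ := by ring
  have h3 : ∀ b ∈ Pᶜ, ∀ b' ∈ P, ∑ π ∈ Om π₀ P, κ b b' * g (π b) (π b') ≤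
      N * (κ b b' * ((∑ z, g z (π₀ b')) / M1)) := by
    intro b hb b' hb'
    rw [← mul_sum, Finset.sum_congr rfl (g := fun π => g (π b) (π₀ b')) (fun π hπ => by
      rw [mem_Om.mp hπ b' hb'])]
    have := sum_single_le (π₀ := π₀) (P := P) (b := b) (by simpa using hb) (fun z => g z (π₀ b'))
      (fun z => hg _ _) hM1 hM1'
    calc _ ≤ κ b b' * (N * ((∑ z, g z (π₀ b')) / M1)) := mul_le_mul_of_nonneg_left this (hκ _ _)
      _ = _ := by ring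
  have h4 : ∀ b ∈ Pᶜ, ∀ b' ∈ Pᶜ, ∑ π ∈ Om π₀ P, κ b b' * g (π b) (π b') ≤
      N * (κ b b' * ((∑ z, ∑ z', g z z') / M2)) := by
    intro b hb b' hb'
    rw [← mul_sum]
    by_cases hbb : b = b'
    · subst hbb
      rw [hκd]; simp
    · have := sum_pair_le (π₀ := π₀) (P := P) (b := b) (b' := b') (by simpa using hb)
        (by simpa using hb') hbb g hg hM2 hM2'
      calc _ ≤ κ b b' * (N * ((∑ z, ∑ z', g z z') / M2)) := mul_le_mul_of_nonneg_left this (hκ _ _)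
        _ = _ := by ring
  rw [sum_comm, Finset.sum_congr rfl (fun b _ => sum_comm)]
  rw [sum_split P, Finset.sum_congr rfl (s₁ := P) (fun b _ => sum_split P _),
    Finset.sum_congr rfl (s₁ := Pᶜ) (fun b _ => sum_split P _), sum_add_distrib, sum_add_distrib]
  have e1 := sum_le_sum (fun b hb => sum_le_sum (fun b' hb' => h1 b hb b' hb'))
  have e2 := sum_le_sum (fun b hb => sum_le_sum (fun b' hb' => h2 b hb b' hb'))
  have e3 := sum_le_sum (fun b hb => sum_le_sum (fun b' hb' => h3 b hb b' hb'))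
  have e4 := sum_le_sum (fun b hb => sum_le_sum (fun b' hb' => h4 b hb b' hb'))
  simp only [← mul_sum] at e1 e2 e3 e4
  simp only [← mul_sum] 
  linarith

end Pool.Agent.H.MP_d03aa7_co
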