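import Mathlib

/-! Removing the last collisions by transpositions. -/

namespace Pool.Agent.H.MP_d03aa7_co

open Finset Equiv

variable {V : Type*} [Fintype V] [DecidableEq V]

/-- ordered collisions -/
def coll (G H : SimpleGraph V) [DecidableRel G.Adj] [DecidableRel H.Adj] (π : Perm V) :
    Finset (V × V) :=
  univ.filter (fun p => H.Adj p.1 p.2 ∧ G.Adj (π p.1) (π p.2))

/-- mixed second degree -/
def Dg (G H : SimpleGraph V) [DecidableRel G.Adj] [DecidableRel H.Adj] (π : Perm V) (c : V) : ℕ :=
  ∑ z ∈ univ.filter (fun z => H.Adj c z), G.degree (π z) +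
    ∑ z ∈ univ.filter (fun z => G.Adj (π c) (π z)), H.degree z

lemma mem_coll {G H : SimpleGraph V} [DecidableRel G.Adj] [DecidableRel H.Adj] {π : Perm V}
    {p : V × V} : p ∈ coll G H π ↔ H.Adj p.1 p.2 ∧ G.Adj (π p.1) (π p.2) := by
  simp [coll]

lemma sum_perturb {S : Finset V} {f f' : V → ℕ} {c w : V} {δ : ℕ} (h : ∀ z, z ≠ c → z ≠ w → f' z = f z)
    (hc : f' c ≤ δ) (hw : f' w ≤ δ) : ∑ z ∈ S, f' z ≤ ∑ z ∈ S, f z + 2 * δ := by
  calc ∑ z ∈ S, f' z ≤ ∑ z ∈ S, (f z + ((if z = c then δ else 0) + (if z = w then δ else 0))) := by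
        apply sum_le_sum
        intro z _
        by_cases h1 : z = c
        · subst h1; simp; omega
        · by_cases h2 : z = w
          · subst h2; simp; omega
          · rw [h z h1 h2]; simp
    _ = ∑ z ∈ S, f z + (∑ z ∈ S, (if z = c then δ else 0) + ∑ z ∈ S, (if z = w then δ else 0)) := by
        rw [sum_add_distrib, sum_add_distrib]
    _ ≤ ∑ z ∈ S, f z + 2 * δ := by
        have h1 : ∀ x : V, ∑ z ∈ S, (if z = x then δ else 0) ≤ δ := by
          intro x
          rw [Finset.sum_ite_eq']
          split <;> omega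
        have := h1 c
        have := h1 w
        omega

theorem swap_all (G H : SimpleGraph V) [DecidableRel G.Adj] [DecidableRel H.Adj]
    (P : Finset V) (δ : ℕ) (hH : ∀ c ∉ P, H.degree c ≤ δ) (m : ℕ) :
    ∀ (π : Perm V) (B : ℕ), (coll G H π).card ≤ m →
      (∀ p ∈ coll G H π, ¬ (p.1 ∈ P ∧ p.2 ∈ P)) →
      (∀ c ∉ P, G.degree (π c) ≤ δ) →
      (∀ c ∉ P, (∃ b, (c, b) ∈ coll G H π) → Dg G H π c ≤ B) →
      B + 4 * δ * m + 2 * δ + P.card + 1 < Fintype.card V →
      ∃ σ : Perm V, ∀ u v, H.Adj u v → ¬ G.Adj (σ u) (σ v) := by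
  induction m with
  | zero =>
    intro π B hc _ _ _ _
    refine ⟨π, fun u v h1 h2 => ?_⟩
    have h3 : (u, v) ∈ coll G H π := mem_coll.mpr ⟨h1, h2⟩
    have h4 : coll G H π = ∅ := card_eq_zero.mp (by omega)
    rw [h4] at h3
    simp at h3
  | succ m ih =>
    intro π B hcard hP hG hD hB
    by_cases hemp : coll G H π = ∅
    · refine ⟨π, fun u v h1 h2 => ?_⟩
      have h3 : (u, v) ∈ coll G H π := mem_coll.mpr ⟨h1, h2⟩
      rw [hemp] at h3
      simp at h3
    · -- a vertex outside `P` in a collision
      obtain ⟨c, b, hcP, hcb⟩ : ∃ c b, c ∉ P ∧ (c, b) ∈ coll G H π := by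
        obtain ⟨p, hp⟩ := nonempty_iff_ne_empty.mpr hemp
        by_cases h1 : p.1 ∈ P
        · have h2 : p.2 ∉ P := fun h2 => hP p hp ⟨h1, h2⟩
          refine ⟨p.2, p.1, h2, ?_⟩
          rw [mem_coll] at hp ⊢
          exact ⟨hp.1.symm, hp.2.symm⟩
        · exact ⟨p.1, p.2, h1, hp⟩
      -- the bad set
      let bad1 := (univ.filter (fun z => H.Adj c z)).biUnion
        (fun z => univ.filter (fun w => G.Adj (π z) (π w)))
      let bad2 := (univ.filter (fun z => G.Adj (π c) (π z))).biUnion
        (fun z => univ.filter (fun w => H.Adj z w))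
      let bad3 := univ.filter (fun z => H.Adj c z)
      let bad4 := univ.filter (fun w => G.Adj (π c) (π w))
      have deg1 : ∀ z, (univ.filter (fun w => G.Adj (π z) (π w))).card = G.degree (π z) := by
        intro z
        rw [← SimpleGraph.card_neighborFinset_eq_degree]
        apply card_bij (fun w _ => π w)
        · intro w hw; simpa using hw
        · intro a _ b _ h; exact π.injective h
        · intro w hw
          refine ⟨π.symm w, by simpa using hw, by simp⟩
      have deg2 : ∀ z, (univ.filter (fun w => H.Adj z w)).card = H.degree z := by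
        intro z
        rw [← SimpleGraph.card_neighborFinset_eq_degree]
        congr 1
        ext w; simp
      have c1 : bad1.card ≤ ∑ z ∈ univ.filter (fun z => H.Adj c z), G.degree (π z) := by
        refine card_biUnion_le.trans (le_of_eq (Finset.sum_congr rfl (fun z _ => deg1 z)))
      have c2 : bad2.card ≤ ∑ z ∈ univ.filter (fun z => G.Adj (π c) (π z)), H.degree z := by
        refine card_biUnion_le.trans (le_of_eq (Finset.sum_congr rfl (fun z _ => deg2 z)))
      have c3 : bad3.card ≤ δ := (deg2 c).le.trans (hH c hcP)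
      have c4 : bad4.card ≤ δ := (deg1 c).le.trans (hG c hcP)
      have hDc : Dg G H π c ≤ B := hD c hcP ⟨b, hcb⟩
      unfold Dg at hDc
      obtain ⟨w, hw⟩ : ∃ w, w ∉ bad1 ∪ bad2 ∪ bad3 ∪ bad4 ∪ P ∪ {c} := by
        by_contra hcon
        push Not at hcon
        have h1 : (bad1 ∪ bad2 ∪ bad3 ∪ bad4 ∪ P ∪ {c}).card = Fintype.card V := by
          rw [← card_univ, eq_univ_of_forall hcon]
        have h2 := card_union_le (bad1 ∪ bad2 ∪ bad3 ∪ bad4 ∪ P) {c}
        have h3 := card_union_le (bad1 ∪ bad2 ∪ bad3 ∪ bad4) P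
        have h4 := card_union_le (bad1 ∪ bad2 ∪ bad3) bad4
        have h5 := card_union_le (bad1 ∪ bad2) bad3
        have h6 := card_union_le bad1 bad2
        rw [card_singleton] at h2
        have h7 : 0 ≤ 4 * δ * (m+1) := Nat.zero_le _
        omega
      simp only [mem_union, not_or, mem_singleton] at hw
      obtain ⟨⟨⟨⟨⟨w1, w2⟩, w3⟩, w4⟩, w5⟩, w6⟩ := hw
      have w1' : ∀ z, H.Adj c z → ¬ G.Adj (π z) (π w) := by
        intro z hz h; apply w1
        simp only [bad1, mem_biUnion, mem_filter, mem_univ, true_and]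
        exact ⟨z, hz, h⟩
      have w2' : ∀ z, G.Adj (π c) (π z) → ¬ H.Adj z w := by
        intro z hz h; apply w2
        simp only [bad2, mem_biUnion, mem_filter, mem_univ, true_and]
        exact ⟨z, hz, h⟩
      have w3' : ¬ H.Adj c w := by
        intro h; apply w3; simp [bad3, h]
      have w4' : ¬ G.Adj (π c) (π w) := by
        intro h; apply w4; simp [bad4, h]
      -- the new permutation
      let π' : Perm V := π * swap c w
      have e1 : π' c = π w := by simp [π']
      have e2 : π' w = π c := by simp [π']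
      have e3 : ∀ z, z ≠ c → z ≠ w → π' z = π z := by
        intro z h1 h2; simp [π', swap_apply_of_ne_of_ne h1 h2]
      have nc : ∀ z, (c, z) ∉ coll G H π' := by
        intro z hz
        rw [mem_coll] at hz
        simp only at hz
        obtain ⟨h1, h2⟩ := hz
        have hzc : z ≠ c := fun h => by subst h; exact H.loopless.irrefl _ h1
        by_cases hzw : z = w
        · subst hzw; exact w3' h1
        · rw [e1, e3 z hzc hzw] at h2
          exact w1' z h1 h2.symm
      have nw : ∀ z, (w, z) ∉ coll G H π' := by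
        intro z hz
        rw [mem_coll] at hz
        simp only at hz
        obtain ⟨h1, h2⟩ := hz
        have hzw : z ≠ w := fun h => by subst h; exact H.loopless.irrefl _ h1
        by_cases hzc : z = c
        · subst hzc; exact w3' h1.symm
        · rw [e2, e3 z hzc hzw] at h2
          exact w2' z h2 h1.symm
      have sy : ∀ a b, (a, b) ∈ coll G H π' → (b, a) ∈ coll G H π' := by
        intro a b h
        rw [mem_coll] at h ⊢
        exact ⟨h.1.symm, h.2.symm⟩
      have sub : ∀ p ∈ coll G H π', p ∈ coll G H π ∧ p.1 ≠ c ∧ p.1 ≠ w ∧ p.2 ≠ c ∧ p.2 ≠ w := by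
        intro p hp
        obtain ⟨a, d⟩ := p
        have h1 : a ≠ c := fun h => nc d (h ▸ hp)
        have h2 : a ≠ w := fun h => nw d (h ▸ hp)
        have h3 : d ≠ c := fun h => nc a (h ▸ sy _ _ hp)
        have h4 : d ≠ w := fun h => nw a (h ▸ sy _ _ hp)
        refine ⟨?_, h1, h2, h3, h4⟩
        rw [mem_coll] at hp ⊢
        simp only at hp ⊢
        rw [e3 a h1 h2, e3 d h3 h4] at hp
        exact hp
      have hlt : (coll G H π').card < (coll G H π).card := by
        apply card_lt_card
        refine ⟨fun p hp => (sub p hp).1, fun h => ?_⟩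
        exact nc b (h hcb)
      have hGw : G.degree (π w) ≤ δ := hG w w5
      have hGc : G.degree (π c) ≤ δ := hG c hcP
      refine ih π' (B + 4 * δ) (by omega) (fun p hp => hP p (sub p hp).1) ?_ ?_ ?_
      · intro z hz
        by_cases h1 : z = c
        · subst h1; rw [e1]; exact hGw
        · by_cases h2 : z = w
          · subst h2; rw [e2]; exact hGc
          · rw [e3 z h1 h2]; exact hG z hz
      · intro z hz ⟨d, hd⟩
        obtain ⟨g1, g2, g3, -, -⟩ := sub _ hd
        simp only at g2 g3
        have hDz := hD z hz ⟨d, g1⟩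
        unfold Dg at hDz ⊢
        have k1 : ∑ x ∈ univ.filter (fun x => H.Adj z x), G.degree (π' x) ≤
            ∑ x ∈ univ.filter (fun x => H.Adj z x), G.degree (π x) + 2 * δ := by
          apply sum_perturb (c := c) (w := w)
          · intro x h1 h2; rw [e3 x h1 h2]
          · rw [e1]; exact hGw
          · rw [e2]; exact hGc
        have k2 : ∑ x ∈ univ.filter (fun x => G.Adj (π' z) (π' x)), H.degree x ≤
            ∑ x ∈ univ.filter (fun x => G.Adj (π z) (π x)), H.degree x + 2 * δ := by
          rw [Finset.sum_filter, Finset.sum_filter]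
          apply sum_perturb (c := c) (w := w)
          · intro x h1 h2; rw [e3 x h1 h2, e3 z g2 g3]
          · split
            · exact hH c hcP
            · omega
          · split
            · exact hH w w5
            · omega
        omega
      · have : 4 * δ * (m + 1) = 4 * δ * m + 4 * δ := by ring
        omega

end Pool.Agent.H.MP_d03aa7_co
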