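import Mathlib
import Pool.Agent.H.MP_d03aa7_co.PermAvg

/-! Generic tuples. -/

namespace Pool.Agent.H.MP_d03aa7_co

open Finset Equiv Classical

variable {V : Type*} [Fintype V] [DecidableEq V] {ι : Type*} [Fintype ι]

/-- indicator of adjacency -/
noncomputable def ad (G : SimpleGraph V) (a b : V) : ℝ := if G.Adj a b then 1 else 0

lemma ad_nonneg (G : SimpleGraph V) (a b : V) : 0 ≤ ad G a b := by unfold ad; split <;> norm_num

lemma ad_le_one (G : SimpleGraph V) (a b : V) : ad G a b ≤ 1 := by unfold ad; split <;> norm_num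

lemma ad_comm (G : SimpleGraph V) (a b : V) : ad G a b = ad G b a := by
  unfold ad; simp only [G.adj_comm a b]

lemma sum_ad (G : SimpleGraph V) (a : V) : ∑ b, ad G a b = G.degree a := by
  unfold ad
  rw [← SimpleGraph.card_neighborFinset_eq_degree]
  simp [SimpleGraph.neighborFinset_eq_filter]

/-- number of ordered adjacent pairs in the tuple -/
noncomputable def F1 (G : SimpleGraph V) (v : ι → V) : ℝ :=
  ∑ i, ∑ j, if i = j then 0 else ad G (v i) (v j)

/-- weighted degree sum -/
noncomputable def F2 (G : SimpleGraph V) (ω : ι → ℝ) (v : ι → V) : ℝ :=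
  ∑ i, ω i * G.degree (v i)

/-- weighted number of common neighbours outside `X` -/
noncomputable def F3 (G : SimpleGraph V) (X : Finset V) (ω : ι → ℝ) (v : ι → V) : ℝ :=
  ∑ i, ∑ j, if i = j then 0 else ω i * ω j * ∑ z ∈ Xᶜ, ad G (v i) z * ad G (v j) z

/-- degree sum -/
noncomputable def F4 (G : SimpleGraph V) (v : ι → V) : ℝ := ∑ i, (G.degree (v i) : ℝ)

lemma F1_nonneg (G : SimpleGraph V) (v : ι → V) : 0 ≤ F1 G v :=
  sum_nonneg fun i _ => sum_nonneg fun j _ => by split; exact le_refl _; exact ad_nonneg _ _ _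

lemma F2_nonneg (G : SimpleGraph V) {ω : ι → ℝ} (hω : ∀ i, 0 ≤ ω i) (v : ι → V) : 0 ≤ F2 G ω v :=
  sum_nonneg fun i _ => mul_nonneg (hω i) (Nat.cast_nonneg _)

lemma F3_nonneg (G : SimpleGraph V) (X : Finset V) {ω : ι → ℝ} (hω : ∀ i, 0 ≤ ω i) (v : ι → V) :
    0 ≤ F3 G X ω v :=
  sum_nonneg fun i _ => sum_nonneg fun j _ => by
    split
    · exact le_refl _
    · exact mul_nonneg (mul_nonneg (hω i) (hω j))
        (sum_nonneg fun z _ => mul_nonneg (ad_nonneg _ _ _) (ad_nonneg _ _ _))

lemma F4_nonneg (G : SimpleGraph V) (v : ι → V) : 0 ≤ F4 G v :=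
  sum_nonneg fun i _ => Nat.cast_nonneg _

lemma Om_univ {W : Type*} [Fintype W] [DecidableEq W] : Om (1 : Perm W) ∅ = univ := by
  ext π; simp [mem_Om]

lemma Fr_univ {W : Type*} [Fintype W] [DecidableEq W] : Fr (1 : Perm W) ∅ = univ := by
  ext π; simp [mem_Fr]

section averages

variable {X : Finset V} (G : SimpleGraph V) (e : ι ↪ {v // v ∉ X}) {M1 M2 S : ℝ}

lemma sub_sum_le {g : V → ℝ} (hg : ∀ v, 0 ≤ g v) : ∑ w : {v // v ∉ X}, g w ≤ ∑ v, g v := by
  rw [← Finset.sum_subtype (univ.filter (fun v => v ∉ X)) (by simp) g]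
  exact sum_le_sum_of_subset_of_nonneg (subset_univ _) (fun v _ _ => hg v)

lemma avg_F4 (hM1 : 0 < M1) (hM1' : M1 ≤ (univ : Finset {v // v ∉ X}).card)
    (hS : ∑ v, (G.degree v : ℝ) ≤ S) :
    ∑ b : Perm {v // v ∉ X}, F4 G (fun i => (b (e i) : V)) ≤
      (univ : Finset (Perm {v // v ∉ X})).card * (Fintype.card ι * (S / M1)) := by
  unfold F4
  rw [sum_comm]
  calc _ ≤ ∑ i : ι, ((univ : Finset (Perm {v // v ∉ X})).card * (S / M1)) := by
        apply sum_le_sum
        intro i _
        have h := sum_single_le (π₀ := (1 : Perm {v // v ∉ X})) (P := ∅) (b := e i) (by simp)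
          (fun w => (G.degree (w : V) : ℝ)) (fun _ => Nat.cast_nonneg _) hM1 (by rw [Fr_univ]; exact hM1')
        rw [Om_univ] at h
        refine h.trans ?_
        gcongr
        exact (sub_sum_le (g := fun v => (G.degree v : ℝ)) (fun _ => Nat.cast_nonneg _)).trans hS
    _ = _ := by rw [sum_const, nsmul_eq_mul, card_univ (α := ι)]; ring

lemma avg_F2 {ω : ι → ℝ} (hω : ∀ i, 0 ≤ ω i) (hM1 : 0 < M1)
    (hM1' : M1 ≤ (univ : Finset {v // v ∉ X}).card)
    (hS : ∑ v, (G.degree v : ℝ) ≤ S) :
    ∑ b : Perm {v // v ∉ X}, F2 G ω (fun i => (b (e i) : V)) ≤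
      (univ : Finset (Perm {v // v ∉ X})).card * ((∑ i, ω i) * (S / M1)) := by
  unfold F2
  rw [sum_comm]
  calc _ ≤ ∑ i : ι, ((univ : Finset (Perm {v // v ∉ X})).card * (ω i * (S / M1))) := by
        apply sum_le_sum
        intro i _
        have h := sum_single_le (π₀ := (1 : Perm {v // v ∉ X})) (P := ∅) (b := e i) (by simp)
          (fun w => (G.degree (w : V) : ℝ)) (fun _ => Nat.cast_nonneg _) hM1 (by rw [Fr_univ]; exact hM1')
        rw [Om_univ] at h
        rw [← mul_sum]
        have h2 : ∑ b : Perm {v // v ∉ X}, (G.degree (b (e i) : V) : ℝ) ≤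
            (univ : Finset (Perm {v // v ∉ X})).card * (S / M1) := by
          refine h.trans ?_
          gcongr
          exact (sub_sum_le (g := fun v => (G.degree v : ℝ)) (fun _ => Nat.cast_nonneg _)).trans hS
        calc _ ≤ ω i * ((univ : Finset (Perm {v // v ∉ X})).card * (S / M1)) :=
              mul_le_mul_of_nonneg_left h2 (hω i)
          _ = _ := by ring
    _ = _ := by rw [← mul_sum, sum_mul]

lemma avg_F1 (hM2 : 0 < M2) (hM2' : M2 ≤ (univ : Finset {v // v ∉ X}).offDiag.card)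
    (hS : ∑ v, (G.degree v : ℝ) ≤ S) (hS0 : 0 ≤ S) :
    ∑ b : Perm {v // v ∉ X}, F1 G (fun i => (b (e i) : V)) ≤
      (univ : Finset (Perm {v // v ∉ X})).card * ((Fintype.card ι)^2 * (S / M2)) := by
  unfold F1
  rw [sum_comm]
  calc _ ≤ ∑ i : ι, ∑ j : ι, ((univ : Finset (Perm {v // v ∉ X})).card * (S / M2)) := by
        apply sum_le_sum
        intro i _
        rw [sum_comm]
        apply sum_le_sum
        intro j _
        by_cases hij : i = j
        · simp only [hij, if_true, sum_const_zero]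
          positivity
        · simp only [hij, if_false]
          have h := sum_pair_le (π₀ := (1 : Perm {v // v ∉ X})) (P := ∅) (b := e i) (b' := e j)
            (by simp) (by simp) (fun h => hij (e.injective h))
            (fun w w' => ad G (w : V) (w' : V)) (fun _ _ => ad_nonneg _ _ _) hM2
            (by rw [Fr_univ]; exact hM2')
          rw [Om_univ] at h
          refine h.trans ?_
          gcongr
          calc ∑ w : {v // v ∉ X}, ∑ w' : {v // v ∉ X}, ad G (w : V) (w' : V) ≤
                ∑ w : {v // v ∉ X}, (G.degree (w : V) : ℝ) := by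
                apply sum_le_sum
                intro w _
                rw [← sum_ad]
                exact sub_sum_le (g := fun v => ad G (w : V) v) (fun _ => ad_nonneg _ _ _)
            _ ≤ _ := (sub_sum_le (g := fun v => (G.degree v : ℝ)) (fun _ => Nat.cast_nonneg _)).trans hS
    _ = _ := by
        simp only [sum_const, nsmul_eq_mul, card_univ (α := ι)]; ring

lemma avg_F3 {ω : ι → ℝ} (hω : ∀ i, 0 ≤ ω i) {δ : ℝ} (hδ0 : 0 ≤ δ) (hδ : ∀ z ∉ X, (G.degree z : ℝ) ≤ δ)
    (hM2 : 0 < M2) (hM2' : M2 ≤ (univ : Finset {v // v ∉ X}).offDiag.card)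
    (hS : ∑ v, (G.degree v : ℝ) ≤ S) :
    ∑ b : Perm {v // v ∉ X}, F3 G X ω (fun i => (b (e i) : V)) ≤
      (univ : Finset (Perm {v // v ∉ X})).card * ((∑ i, ω i)^2 * (δ * S / M2)) := by
  have hS0 : 0 ≤ S := (sum_nonneg (fun v _ => Nat.cast_nonneg _)).trans hS
  unfold F3
  rw [sum_comm]
  calc _ ≤ ∑ i : ι, ∑ j : ι, ((univ : Finset (Perm {v // v ∉ X})).card *
          (ω i * ω j * (δ * S / M2))) := by
        apply sum_le_sum
        intro i _
        rw [sum_comm]
        apply sum_le_sum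
        intro j _
        have hωij : 0 ≤ ω i * ω j := mul_nonneg (hω i) (hω j)
        by_cases hij : i = j
        · simp only [hij, if_true, sum_const_zero]
          have := hω j
          positivity
        · simp only [hij, if_false]
          have h := sum_pair_le (π₀ := (1 : Perm {v // v ∉ X})) (P := ∅) (b := e i) (b' := e j)
            (by simp) (by simp) (fun h => hij (e.injective h))
            (fun w w' => ω i * ω j * ∑ z ∈ Xᶜ, ad G (w : V) z * ad G (w' : V) z) (fun _ _ =>
              mul_nonneg hωij (sum_nonneg fun z _ => mul_nonneg (ad_nonneg _ _ _) (ad_nonneg _ _ _))) hM2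
            (by rw [Fr_univ]; exact hM2')
          rw [Om_univ] at h
          refine h.trans ?_
          have key : ∑ w : {v // v ∉ X}, ∑ w' : {v // v ∉ X},
              ω i * ω j * ∑ z ∈ Xᶜ, ad G (w : V) z * ad G (w' : V) z ≤ ω i * ω j * (δ * S) := by
            calc ∑ w : {v // v ∉ X}, ∑ w' : {v // v ∉ X}, ω i * ω j * ∑ z ∈ Xᶜ, ad G (w : V) z * ad G (w' : V) z
                = ω i * ω j * ∑ z ∈ Xᶜ, (∑ w : {v // v ∉ X}, ad G (w : V) z) *
                    (∑ w' : {v // v ∉ X}, ad G (w' : V) z) := by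
                  simp only [← mul_sum]
                  congr 1
                  rw [Finset.sum_congr rfl (fun w _ => sum_comm)]
                  rw [sum_comm]
                  apply Finset.sum_congr rfl
                  intro z _
                  rw [sum_mul_sum]
              _ ≤ ω i * ω j * ∑ z ∈ Xᶜ, δ * (G.degree z : ℝ) := by
                  apply mul_le_mul_of_nonneg_left _ hωij
                  apply sum_le_sum
                  intro z hz
                  have h1 : ∑ w : {v // v ∉ X}, ad G (w : V) z ≤ (G.degree z : ℝ) := by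
                    rw [← sum_ad, Finset.sum_congr rfl (fun w _ => ad_comm G _ _)]
                    exact sub_sum_le (g := fun v => ad G z v) (fun _ => ad_nonneg _ _ _)
                  have h2 : 0 ≤ ∑ w : {v // v ∉ X}, ad G (w : V) z :=
                    sum_nonneg (fun _ _ => ad_nonneg _ _ _)
                  have h3 : (G.degree z : ℝ) ≤ δ := hδ z (by simpa using hz)
                  exact mul_le_mul (h1.trans h3) h1 h2 hδ0
              _ ≤ ω i * ω j * (δ * S) := by
                  apply mul_le_mul_of_nonneg_left _ hωij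
                  rw [← mul_sum]
                  apply mul_le_mul_of_nonneg_left _ hδ0
                  exact (sum_le_sum_of_subset_of_nonneg (subset_univ _)
                    (fun v _ _ => Nat.cast_nonneg _)).trans hS
          apply mul_le_mul_of_nonneg_left _ (Nat.cast_nonneg _)
          calc _ ≤ ω i * ω j * (δ * S) / M2 := div_le_div_of_nonneg_right key hM2.le
            _ = _ := by ring
    _ = _ := by
        simp only [← mul_sum]
        rw [sq, sum_mul_sum]
        congr 1
        rw [sum_mul]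
        apply Finset.sum_congr rfl
        intro i _
        rw [sum_mul]

end averages

/-- the good tuples -/
def goodT (G : SimpleGraph V) (X : Finset V) (ω : ι → ℝ) (C2 C3 C4 : ℝ) : Set (ι → {v // v ∉ X}) :=
  {v | Function.Injective v ∧ F1 G (fun i => (v i : V)) = 0 ∧ F2 G ω (fun i => (v i : V)) ≤ C2 ∧
    F3 G X ω (fun i => (v i : V)) ≤ C3 ∧ F4 G (fun i => (v i : V)) ≤ C4}

lemma F1_eq_zero {G : SimpleGraph V} {v : ι → V} (h : F1 G v < 1) : F1 G v = 0 := by
  by_contra hne
  have h1 : ∃ i ∈ (univ : Finset ι), (∑ j, if i = j then 0 else ad G (v i) (v j)) ≠ 0 := by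
    by_contra hcon
    push Not at hcon
    exact hne (sum_eq_zero hcon)
  obtain ⟨i, _, hi⟩ := h1
  have h2 : ∃ j ∈ (univ : Finset ι), (if i = j then 0 else ad G (v i) (v j)) ≠ 0 := by
    by_contra hcon
    push Not at hcon
    exact hi (sum_eq_zero hcon)
  obtain ⟨j, _, hj⟩ := h2
  have h3 : (1 : ℝ) ≤ (if i = j then 0 else ad G (v i) (v j)) := by
    by_cases hij : i = j
    · simp [hij] at hj
    · simp only [hij, if_false] at hj ⊢
      unfold ad at hj ⊢
      split at hj <;> simp_all
  have h4 : (if i = j then 0 else ad G (v i) (v j)) ≤ ∑ j, if i = j then 0 else ad G (v i) (v j) :=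
    single_le_sum (f := fun j => if i = j then 0 else ad G (v i) (v j))
      (fun j _ => by split; exact le_refl _; exact ad_nonneg _ _ _) (mem_univ j)
  have h5 : (∑ j, if i = j then 0 else ad G (v i) (v j)) ≤ F1 G v :=
    single_le_sum (f := fun i => ∑ j, if i = j then 0 else ad G (v i) (v j))
      (fun i _ => sum_nonneg (fun j _ => by split; exact le_refl _; exact ad_nonneg _ _ _)) (mem_univ i)
  linarith

/-- most tuples are good -/
theorem good_most {X : Finset V} (G : SimpleGraph V) (e : ι ↪ {v // v ∉ X}) {M1 M2 S δ C2 C3 C4 : ℝ}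
    {ω : ι → ℝ} (hω : ∀ i, 0 ≤ ω i) (hδ0 : 0 ≤ δ) (hδ : ∀ z ∉ X, (G.degree z : ℝ) ≤ δ)
    (hM1 : 0 < M1) (hM1' : M1 ≤ (univ : Finset {v // v ∉ X}).card)
    (hM2 : 0 < M2) (hM2' : M2 ≤ (univ : Finset {v // v ∉ X}).offDiag.card)
    (hS : ∑ v, (G.degree v : ℝ) ≤ S)
    (hC2 : 0 < C2) (hC3 : 0 < C3) (hC4 : 0 < C4)
    (k1 : (Fintype.card ι : ℝ)^2 * (S / M2) ≤ 1/64)
    (k2 : (∑ i, ω i) * (S / M1) ≤ C2 / 64)
    (k3 : (∑ i, ω i)^2 * (δ * S / M2) ≤ C3 / 64)
    (k4 : (Fintype.card ι : ℝ) * (S / M1) ≤ C4 / 64) :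
    16 * (univ.filter (fun b : Perm {v // v ∉ X} => (fun i => b (e i)) ∉ goodT G X ω C2 C3 C4)).card ≤
      Fintype.card (Perm {v // v ∉ X}) := by
  have hS0 : 0 ≤ S := (sum_nonneg (fun v _ => Nat.cast_nonneg _)).trans hS
  have a1 := avg_F1 G e hM2 hM2' hS hS0
  have a2 := avg_F2 G e hω hM1 hM1' hS
  have a3 := avg_F3 G e hω hδ0 hδ hM2 hM2' hS
  have a4 := avg_F4 G e hM1 hM1' hS
  set N : ℝ := ((univ : Finset (Perm {v // v ∉ X})).card : ℝ) with hN
  have hN0 : 0 ≤ N := Nat.cast_nonneg _
  have b1 : ∑ b : Perm {v // v ∉ X}, F1 G (fun i => (b (e i) : V)) ≤ N * (1/64) :=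
    a1.trans (mul_le_mul_of_nonneg_left k1 hN0)
  have b2 : ∑ b : Perm {v // v ∉ X}, F2 G ω (fun i => (b (e i) : V)) ≤ N * (C2/64) :=
    a2.trans (mul_le_mul_of_nonneg_left k2 hN0)
  have b3 : ∑ b : Perm {v // v ∉ X}, F3 G X ω (fun i => (b (e i) : V)) ≤ N * (C3/64) :=
    a3.trans (mul_le_mul_of_nonneg_left k3 hN0)
  have b4 : ∑ b : Perm {v // v ∉ X}, F4 G (fun i => (b (e i) : V)) ≤ N * (C4/64) :=
    a4.trans (mul_le_mul_of_nonneg_left k4 hN0)
  set B := univ.filter (fun b : Perm {v // v ∉ X} => (fun i => b (e i)) ∉ goodT G X ω C2 C3 C4)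
    with hB
  have hT : (B.card : ℝ) ≤ ∑ b : Perm {v // v ∉ X}, (F1 G (fun i => (b (e i) : V)) +
      F2 G ω (fun i => (b (e i) : V)) / C2 + F3 G X ω (fun i => (b (e i) : V)) / C3 +
      F4 G (fun i => (b (e i) : V)) / C4) := by
    have hnn : ∀ b : Perm {v // v ∉ X}, 0 ≤ F1 G (fun i => (b (e i) : V)) ∧
      0 ≤ F2 G ω (fun i => (b (e i) : V)) / C2 ∧ 0 ≤ F3 G X ω (fun i => (b (e i) : V)) / C3 ∧
      0 ≤ F4 G (fun i => (b (e i) : V)) / C4 := fun b =>
        ⟨F1_nonneg _ _, div_nonneg (F2_nonneg _ hω _) hC2.le, div_nonneg (F3_nonneg _ _ hω _) hC3.le,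
          div_nonneg (F4_nonneg _ _) hC4.le⟩
    calc (B.card : ℝ) = ∑ b ∈ B, (1 : ℝ) := by simp
      _ ≤ ∑ b ∈ B, (F1 G (fun i => (b (e i) : V)) +
          F2 G ω (fun i => (b (e i) : V)) / C2 + F3 G X ω (fun i => (b (e i) : V)) / C3 +
          F4 G (fun i => (b (e i) : V)) / C4) := by
          apply sum_le_sum
          intro b hb
          obtain ⟨n1, n2, n3, n4⟩ := hnn b
          by_contra hcon
          push Not at hcon
          rw [hB, mem_filter] at hb
          apply hb.2
          refine ⟨fun i j h => e.injective (b.injective h), F1_eq_zero (by linarith), ?_, ?_, ?_⟩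
          · rw [← div_le_one hC2]; linarith
          · rw [← div_le_one hC3]; linarith
          · rw [← div_le_one hC4]; linarith
      _ ≤ _ := sum_le_sum_of_subset_of_nonneg (subset_univ _) (fun b _ _ => by
          obtain ⟨n1, n2, n3, n4⟩ := hnn b
          linarith)
  rw [sum_add_distrib, sum_add_distrib, sum_add_distrib, ← sum_div, ← sum_div, ← sum_div] at hT
  have d2 : (∑ b : Perm {v // v ∉ X}, F2 G ω (fun i => (b (e i) : V))) / C2 ≤ N * (1/64) := by
    rw [div_le_iff₀ hC2]; linarith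
  have d3 : (∑ b : Perm {v // v ∉ X}, F3 G X ω (fun i => (b (e i) : V))) / C3 ≤ N * (1/64) := by
    rw [div_le_iff₀ hC3]; linarith
  have d4 : (∑ b : Perm {v // v ∉ X}, F4 G (fun i => (b (e i) : V))) / C4 ≤ N * (1/64) := by
    rw [div_le_iff₀ hC4]; linarith
  have h16 : 16 * (B.card : ℝ) ≤ N := by linarith
  have : (16 * B.card : ℕ) ≤ (univ : Finset (Perm {v // v ∉ X})).card := by
    rw [hN] at h16
    exact_mod_cast h16
  rwa [card_univ] at this

end Pool.Agent.H.MP_d03aa7_co
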