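import Mathlib
import Pool.Agent.H.MP_d03aa7_co.PairE
import Pool.Agent.H.MP_d03aa7_co.Tuple
import Pool.Agent.H.MP_d03aa7_co.Swap

/-! Random completion of a partial placement. -/

namespace Pool.Agent.H.MP_d03aa7_co

open Finset Equiv Classical

variable {V : Type*} [Fintype V] [DecidableEq V]

/-- weights of pairs with a common `H`-neighbour outside `P` -/
noncomputable def kap (H : SimpleGraph V) (Y P : Finset V) (b b' : V) : ℝ :=
  if b = b' ∨ b ∈ Y ∨ b' ∈ Y then 0 else ∑ c ∈ Pᶜ, ad H b c * ad H b' c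

lemma kap_nonneg (H : SimpleGraph V) (Y P : Finset V) (b b' : V) : 0 ≤ kap H Y P b b' := by
  unfold kap
  split
  · exact le_refl _
  · exact sum_nonneg fun z _ => mul_nonneg (ad_nonneg _ _ _) (ad_nonneg _ _ _)

lemma kap_le (H : SimpleGraph V) (Y P : Finset V) (b b' : V) :
    kap H Y P b b' ≤ ∑ c ∈ Pᶜ, ad H b c * ad H b' c := by
  unfold kap
  split
  · exact sum_nonneg fun z _ => mul_nonneg (ad_nonneg _ _ _) (ad_nonneg _ _ _)
  · exact le_refl _

lemma kap_symm (H : SimpleGraph V) (Y P : Finset V) (b b' : V) : kap H Y P b b' = kap H Y P b' b := by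
  unfold kap
  by_cases h : b = b' ∨ b ∈ Y ∨ b' ∈ Y
  · have h' : b' = b ∨ b' ∈ Y ∨ b ∈ Y := by
      rcases h with h | h | h
      · exact Or.inl h.symm
      · exact Or.inr (Or.inr h)
      · exact Or.inr (Or.inl h)
    rw [if_pos h, if_pos h']
  · have h' : ¬ (b' = b ∨ b' ∈ Y ∨ b ∈ Y) := by
      rintro (h1 | h1 | h1)
      · exact h (Or.inl h1.symm)
      · exact h (Or.inr (Or.inr h1))
      · exact h (Or.inr (Or.inl h1))
    rw [if_neg h, if_neg h']
    exact Finset.sum_congr rfl (fun c _ => mul_comm _ _)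

/-- second moment functional -/
noncomputable def Phi (G H : SimpleGraph V) (Y P : Finset V) (π : Perm V) : ℝ :=
  ∑ b, ∑ b', kap H Y P b b' * ((G.degree (π b) : ℝ) * G.degree (π b'))

lemma Phi_nonneg (G H : SimpleGraph V) (Y P : Finset V) (π : Perm V) : 0 ≤ Phi G H Y P π :=
  sum_nonneg fun b _ => sum_nonneg fun b' _ => mul_nonneg (kap_nonneg _ _ _ _ _) (by positivity)

/-- average of the second moment functional -/
theorem avg_Phi (G H : SimpleGraph V) {Y : Finset V} {ι : Type*} [Fintype ι] {u : ι → V}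
    (hu : Function.Injective u) (huY : ∀ i, u i ∉ Y) {π₀ : Perm V} {P : Finset V}
    (hP : P = Y ∪ univ.image u) {δ S M1 M2 C2 C3 : ℝ} (hδ0 : 0 ≤ δ)
    (hδ : ∀ c ∉ P, (H.degree c : ℝ) ≤ δ)
    (hSG : ∑ v, (G.degree v : ℝ) ≤ S) (hSH : ∑ v, (H.degree v : ℝ) ≤ S)
    (hM1 : 0 < M1) (hM1' : M1 ≤ (Fr π₀ P).card) (hM2 : 0 < M2) (hM2' : M2 ≤ (Fr π₀ P).offDiag.card)
    (h2 : F2 H (fun i => (G.degree (π₀ (u i)) : ℝ)) u ≤ C2)
    (h3 : F3 H Y (fun i => (G.degree (π₀ (u i)) : ℝ)) u ≤ C3) :
    ∑ π ∈ Om π₀ P, Phi G H Y P π ≤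
      (Om π₀ P).card * (C3 + 2 * (S / M1 * δ * C2) + S ^ 2 / M2 * (δ * S)) := by
  have hS0 : 0 ≤ S := (sum_nonneg (fun v _ => Nat.cast_nonneg _)).trans hSG
  have main := pairE (π₀ := π₀) (P := P) (κ := kap H Y P) (kap_nonneg H Y P)
    (fun b => by unfold kap; simp) (g := fun z z' => (G.degree z : ℝ) * G.degree z')
    (fun _ _ => by positivity) hM1 hM1' hM2 hM2'
  refine main.trans (mul_le_mul_of_nonneg_left ?_ (Nat.cast_nonneg _))
  have himg : ∀ f : V → ℝ, (∀ b ∈ Y, f b = 0) → ∑ b ∈ P, f b = ∑ i, f (u i) := by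
    intro f hf
    have hd : Disjoint Y (univ.image u) := by
      rw [disjoint_left]
      intro a ha ha'
      obtain ⟨i, _, rfl⟩ := mem_image.mp ha'
      exact huY i ha
    rw [hP, sum_union hd, sum_eq_zero hf, zero_add, sum_image (fun i _ j _ h => hu h)]
  have hYz : ∀ b ∈ Y, ∀ b', kap H Y P b b' = 0 := by
    intro b hb b'; unfold kap; rw [if_pos (Or.inr (Or.inl hb))]
  have hYz' : ∀ b ∈ Y, ∀ b', kap H Y P b' b = 0 := by
    intro b hb b'; unfold kap; rw [if_pos (Or.inr (Or.inr hb))]
  have hPY : Pᶜ ⊆ Yᶜ := by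
    intro a ha
    rw [mem_compl] at ha ⊢
    intro h; apply ha; rw [hP]; exact mem_union_left _ h
  -- part PP
  have p1 : ∑ b ∈ P, ∑ b' ∈ P, kap H Y P b b' * ((G.degree (π₀ b) : ℝ) * G.degree (π₀ b')) ≤ C3 := by
    rw [himg _ (fun b hb => sum_eq_zero (fun b' _ => by rw [hYz b hb, zero_mul]))]
    refine le_trans ?_ h3
    unfold F3
    apply sum_le_sum
    intro i _
    rw [himg _ (fun b hb => by rw [hYz' b hb, zero_mul])]
    apply sum_le_sum
    intro j _
    by_cases hij : i = j
    · subst hij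
      rw [if_pos rfl]
      unfold kap
      simp
    · rw [if_neg hij]
      calc kap H Y P (u i) (u j) * ((G.degree (π₀ (u i)) : ℝ) * G.degree (π₀ (u j))) ≤
            (∑ c ∈ Pᶜ, ad H (u i) c * ad H (u j) c) * ((G.degree (π₀ (u i)) : ℝ) * G.degree (π₀ (u j))) :=
            mul_le_mul_of_nonneg_right (kap_le _ _ _ _ _) (by positivity)
        _ ≤ (∑ c ∈ Yᶜ, ad H (u i) c * ad H (u j) c) * ((G.degree (π₀ (u i)) : ℝ) * G.degree (π₀ (u j))) := by
            apply mul_le_mul_of_nonneg_right _ (by positivity)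
            exact sum_le_sum_of_subset_of_nonneg hPY
              (fun z _ _ => mul_nonneg (ad_nonneg _ _ _) (ad_nonneg _ _ _))
        _ = _ := by ring
  -- column sums of kap
  have kcol : ∀ b, ∑ b' ∈ Pᶜ, kap H Y P b b' ≤ δ * H.degree b := by
    intro b
    calc ∑ b' ∈ Pᶜ, kap H Y P b b' ≤ ∑ b' ∈ Pᶜ, ∑ c ∈ Pᶜ, ad H b c * ad H b' c :=
          sum_le_sum (fun b' _ => kap_le _ _ _ _ _)
      _ = ∑ c ∈ Pᶜ, ad H b c * ∑ b' ∈ Pᶜ, ad H b' c := by
          rw [sum_comm]
          exact Finset.sum_congr rfl (fun c _ => by rw [mul_sum])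
      _ ≤ ∑ c ∈ Pᶜ, ad H b c * δ := by
          apply sum_le_sum
          intro c hc
          apply mul_le_mul_of_nonneg_left _ (ad_nonneg _ _ _)
          calc ∑ b' ∈ Pᶜ, ad H b' c ≤ ∑ b', ad H b' c :=
                sum_le_sum_of_subset_of_nonneg (subset_univ _) (fun _ _ _ => ad_nonneg _ _ _)
            _ = H.degree c := by rw [← sum_ad]; exact Finset.sum_congr rfl (fun b' _ => ad_comm _ _ _)
            _ ≤ δ := hδ c (by simpa using hc)
      _ = (∑ c ∈ Pᶜ, ad H b c) * δ := by rw [sum_mul]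
      _ ≤ (H.degree b : ℝ) * δ := by
          apply mul_le_mul_of_nonneg_right _ hδ0
          rw [← sum_ad]
          exact sum_le_sum_of_subset_of_nonneg (subset_univ _) (fun _ _ _ => ad_nonneg _ _ _)
      _ = _ := mul_comm _ _
  -- part P, Pᶜ
  have p2 : ∑ b ∈ P, ∑ b' ∈ Pᶜ, kap H Y P b b' * ((∑ z, (G.degree (π₀ b) : ℝ) * G.degree z) / M1) ≤
      S / M1 * δ * C2 := by
    rw [himg _ (fun b hb => sum_eq_zero (fun b' _ => by rw [hYz b hb, zero_mul]))]
    calc ∑ i, ∑ b' ∈ Pᶜ, kap H Y P (u i) b' * ((∑ z, (G.degree (π₀ (u i)) : ℝ) * G.degree z) / M1)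
        ≤ ∑ i, (S / M1 * δ) * ((G.degree (π₀ (u i)) : ℝ) * H.degree (u i)) := by
          apply sum_le_sum
          intro i _
          rw [← sum_mul, ← mul_sum]
          have e1 : (G.degree (π₀ (u i)) : ℝ) * ∑ z, (G.degree z : ℝ) ≤ G.degree (π₀ (u i)) * S :=
            mul_le_mul_of_nonneg_left hSG (Nat.cast_nonneg _)
          calc (∑ b' ∈ Pᶜ, kap H Y P (u i) b') * ((G.degree (π₀ (u i)) : ℝ) * (∑ z, (G.degree z : ℝ)) / M1)
              ≤ (δ * H.degree (u i)) * ((G.degree (π₀ (u i)) : ℝ) * S / M1) := by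
                apply mul_le_mul (kcol _) (div_le_div_of_nonneg_right e1 hM1.le)
                · apply div_nonneg _ hM1.le
                  apply mul_nonneg (Nat.cast_nonneg _)
                  exact sum_nonneg fun _ _ => Nat.cast_nonneg _
                · positivity
            _ = _ := by ring
      _ ≤ S / M1 * δ * C2 := by
          rw [← mul_sum]
          apply mul_le_mul_of_nonneg_left _ (by positivity)
          exact h2
  have p3 : ∑ b ∈ Pᶜ, ∑ b' ∈ P, kap H Y P b b' * ((∑ z, (G.degree z : ℝ) * G.degree (π₀ b')) / M1) ≤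
      S / M1 * δ * C2 := by
    rw [sum_comm]
    refine le_trans (le_of_eq ?_) p2
    apply Finset.sum_congr rfl
    intro b _
    apply Finset.sum_congr rfl
    intro b' _
    rw [kap_symm]
    congr 2
    exact Finset.sum_congr rfl (fun z _ => mul_comm _ _)
  have p4 : ∑ b ∈ Pᶜ, ∑ b' ∈ Pᶜ, kap H Y P b b' *
      ((∑ z, ∑ z', (G.degree z : ℝ) * G.degree z') / M2) ≤ S ^ 2 / M2 * (δ * S) := by
    have e2 : ∑ z, ∑ z', (G.degree z : ℝ) * G.degree z' ≤ S ^ 2 := by
      rw [← sum_mul_sum, sq]
      exact mul_le_mul hSG hSG (sum_nonneg fun _ _ => Nat.cast_nonneg _) hS0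
    simp only [← sum_mul]
    rw [mul_comm]
    apply mul_le_mul
    · exact div_le_div_of_nonneg_right e2 hM2.le
    · calc ∑ b ∈ Pᶜ, ∑ b' ∈ Pᶜ, kap H Y P b b' ≤ ∑ b ∈ Pᶜ, δ * H.degree b :=
            sum_le_sum (fun b _ => kcol b)
        _ = δ * ∑ b ∈ Pᶜ, (H.degree b : ℝ) := by rw [mul_sum]
        _ ≤ δ * S := by
            apply mul_le_mul_of_nonneg_left _ hδ0
            exact (sum_le_sum_of_subset_of_nonneg (subset_univ _)
              (fun _ _ _ => Nat.cast_nonneg _)).trans hSH
    · exact sum_nonneg fun b _ => sum_nonneg fun b' _ => kap_nonneg _ _ _ _ _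
    · positivity
  linarith

/-- bound for the weighted neighbourhood sum from the second moment -/
theorem nbr_sum_bound (G H : SimpleGraph V) {Y P : Finset V} {π : Perm V} {c : V} (hc : c ∉ P)
    {D η C4 : ℝ} (hη : 0 ≤ η) (hD : 0 ≤ D)
    (hdeg : ∀ z ∉ Y, H.Adj c z → (G.degree (π z) : ℝ) ≤ D)
    (hPhi : Phi G H Y P π ≤ (D + η) * η)
    (hY : ∑ z ∈ Y, (G.degree (π z) : ℝ) ≤ C4) :
    ∑ z, ad H c z * G.degree (π z) ≤ C4 + (D + η) := by
  set t : V → ℝ := fun z => if z ∈ Y then 0 else ad H c z * G.degree (π z) with ht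
  have ht0 : ∀ z, 0 ≤ t z := by
    intro z; simp only [ht]; split
    · exact le_refl _
    · exact mul_nonneg (ad_nonneg _ _ _) (Nat.cast_nonneg _)
  have htD : ∀ z, t z ≤ D := by
    intro z; simp only [ht]; split
    · exact hD
    · rename_i hz
      unfold ad
      split
      · rename_i ha
        rw [one_mul]; exact hdeg z hz ha
      · rw [zero_mul]; exact hD
  have h1 : (∑ z, t z) ^ 2 ≤ D * (∑ z, t z) + (D + η) * η := by
    calc (∑ z, t z) ^ 2 = ∑ z, ∑ z', t z * t z' := by rw [sq, sum_mul_sum]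
      _ = ∑ z, ∑ z', ((if z = z' then t z * t z' else 0) + (if z = z' then 0 else t z * t z')) := by
          apply Finset.sum_congr rfl; intro z _
          apply Finset.sum_congr rfl; intro z' _
          split <;> simp
      _ = ∑ z, t z * t z + ∑ z, ∑ z', (if z = z' then 0 else t z * t z') := by
          simp only [sum_add_distrib]
          congr 1
          apply Finset.sum_congr rfl; intro z _
          simp
      _ ≤ D * (∑ z, t z) + Phi G H Y P π := by
          apply add_le_add
          · rw [mul_sum]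
            exact sum_le_sum fun z _ => mul_le_mul_of_nonneg_right (htD z) (ht0 z)
          · unfold Phi
            apply sum_le_sum; intro z _
            apply sum_le_sum; intro z' _
            by_cases h : z = z' ∨ z ∈ Y ∨ z' ∈ Y
            · have e0 : (if z = z' then 0 else t z * t z') = 0 := by
                rcases h with h | h | h
                · rw [if_pos h]
                · have : t z = 0 := by simp [ht, h]
                  rw [this]; simp
                · have : t z' = 0 := by simp [ht, h]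
                  rw [this]; simp
              rw [e0]
              exact mul_nonneg (kap_nonneg _ _ _ _ _) (by positivity)
            · unfold kap
              rw [if_neg h]
              push Not at h
              obtain ⟨g1, g2, g3⟩ := h
              rw [if_neg g1]
              simp only [ht, if_neg g2, if_neg g3]
              have : ad H z c * ad H z' c ≤ ∑ c ∈ Pᶜ, ad H z c * ad H z' c :=
                single_le_sum (f := fun c => ad H z c * ad H z' c)
                  (fun _ _ => mul_nonneg (ad_nonneg _ _ _) (ad_nonneg _ _ _)) (by simpa using hc)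
              calc ad H c z * (G.degree (π z) : ℝ) * (ad H c z' * G.degree (π z')) =
                    (ad H z c * ad H z' c) * ((G.degree (π z) : ℝ) * G.degree (π z')) := by
                    rw [ad_comm H c z, ad_comm H c z']; ring
                _ ≤ _ := mul_le_mul_of_nonneg_right this (by positivity)
      _ ≤ _ := by linarith
  have hS0 : 0 ≤ ∑ z, t z := sum_nonneg fun z _ => ht0 z
  have h2 : ∑ z, t z ≤ D + η := by
    by_contra hcon
    push Not at hcon
    nlinarith
  calc ∑ z, ad H c z * (G.degree (π z) : ℝ) ≤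
        ∑ z, ((if z ∈ Y then (G.degree (π z) : ℝ) else 0) + t z) := by
        apply sum_le_sum; intro z _
        simp only [ht]
        split
        · rw [add_zero]
          calc _ ≤ 1 * (G.degree (π z) : ℝ) :=
                mul_le_mul_of_nonneg_right (ad_le_one _ _ _) (Nat.cast_nonneg _)
            _ = _ := one_mul _
        · rw [zero_add]
    _ = ∑ z ∈ Y, (G.degree (π z) : ℝ) + ∑ z, t z := by
        rw [sum_add_distrib]
        congr 1
        rw [← sum_filter]
        congr 1
        ext z; simp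
    _ ≤ _ := add_le_add hY h2

end Pool.Agent.H.MP_d03aa7_co
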