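import Mathlib
import Pool.Agent.H.MP_d03aa7_co.Complete

/-! From a good partial placement to a packing. -/

namespace Pool.Agent.H.MP_d03aa7_co

open Finset Equiv Classical

variable {V : Type*} [Fintype V] [DecidableEq V]

lemma exists_base {X Y : Finset V} {u : X → V} {v : Y → V} (hu : Function.Injective u)
    (hv : Function.Injective v) (huY : ∀ x, u x ∉ Y) (hvX : ∀ y, v y ∉ X) :
    ∃ π₀ : Perm V, (∀ x : X, π₀ (u x) = x) ∧ (∀ y : Y, π₀ y = v y) := by
  let f : V → V := fun b => if h : b ∈ Y then v ⟨b, h⟩ else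
    if h2 : ∃ x : X, u x = b then (h2.choose : V) else b
  have f1 : ∀ y : Y, f y = v y := by
    intro y; simp only [f]; rw [dif_pos y.2]
  have f2 : ∀ x : X, f (u x) = x := by
    intro x
    simp only [f]
    rw [dif_neg (huY x)]
    have h2 : ∃ x' : X, u x' = u x := ⟨x, rfl⟩
    rw [dif_pos h2]
    have := h2.choose_spec
    rw [hu this]
  have hinj : Set.InjOn f ((Y ∪ univ.image u : Finset V) : Set V) := by
    intro a ha b hb hab
    simp only [coe_union, coe_image, coe_univ, Set.image_univ, Set.mem_union, mem_coe,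
      Set.mem_range] at ha hb
    rcases ha with ha | ⟨x, rfl⟩ <;> rcases hb with hb | ⟨x', rfl⟩
    · have e1 := f1 ⟨a, ha⟩
      have e2 := f1 ⟨b, hb⟩
      simp only at e1 e2
      rw [e1, e2] at hab
      have := hv hab
      simpa using this
    · have e1 := f1 ⟨a, ha⟩
      simp only at e1
      rw [e1, f2] at hab
      exact absurd (hab ▸ x'.2) (hvX _)
    · have e1 := f1 ⟨b, hb⟩
      simp only at e1
      rw [e1, f2] at hab
      exact absurd (hab ▸ x.2) (hvX _)
    · rw [f2, f2] at hab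
      rw [Subtype.ext hab]
  obtain ⟨g, hg⟩ := Finset.exists_equiv_extend_of_card_eq (t := (univ : Finset V))
    (card_univ (α := V)).symm (subset_univ _) hinj
  let h : (univ : Finset V) ≃ V := Equiv.subtypeUnivEquiv (fun x => mem_univ x)
  refine ⟨g.trans h, ?_, ?_⟩
  · intro x
    have := hg (u x) (mem_union_right _ (mem_image_of_mem _ (mem_univ x)))
    rw [f2] at this
    exact this
  · intro y
    have := hg y (mem_union_left _ y.2)
    rw [f1] at this
    exact this

/-- image of the placed set -/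
lemma image_P {X Y : Finset V} {u : X → V} {v : Y → V} {π₀ : Perm V}
    (h1 : ∀ x : X, π₀ (u x) = x) (h2 : ∀ y : Y, π₀ y = v y) :
    (Y ∪ univ.image u).image π₀ = X ∪ univ.image v := by
  ext a
  simp only [mem_image, mem_union, mem_univ, true_and]
  constructor
  · rintro ⟨b, hb | ⟨x, rfl⟩, rfl⟩
    · right; exact ⟨⟨b, hb⟩, (h2 ⟨b, hb⟩).symm⟩
    · left; rw [h1]; exact x.2
  · rintro (h | ⟨y, rfl⟩)
    · exact ⟨u ⟨a, h⟩, Or.inr ⟨_, rfl⟩, h1 ⟨a, h⟩⟩
    · exact ⟨y, Or.inl y.2, h2 y⟩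

lemma Om_inv {π₀ : Perm V} {P : Finset V} {F : Perm V → ℝ} :
    ∑ π ∈ Om π₀ P, F π⁻¹ = ∑ π ∈ Om π₀⁻¹ (P.image π₀), F π := by
  apply Finset.sum_bij (fun π _ => π⁻¹)
  · intro π hπ
    rw [mem_Om] at hπ ⊢
    intro c hc
    obtain ⟨b, hb, rfl⟩ := mem_image.mp hc
    have h1 : π.symm (π b) = b := π.symm_apply_apply b
    have h2 : π₀.symm (π₀ b) = b := π₀.symm_apply_apply b
    rw [hπ b hb] at h1
    exact h1.trans h2.symm
  · intro a _ b _ h
    exact inv_injective h
  · intro π hπ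
    refine ⟨π⁻¹, ?_, inv_inv π⟩
    rw [mem_Om] at hπ ⊢
    intro c hc
    have h1 : π (π₀ c) = π₀.symm (π₀ c) := hπ (π₀ c) (mem_image_of_mem _ hc)
    rw [π₀.symm_apply_apply] at h1
    have h2 : π.symm (π (π₀ c)) = π₀ c := π.symm_apply_apply _
    rw [h1] at h2
    exact h2
  · intro π _; rfl

lemma card_Om_inv {π₀ : Perm V} {P : Finset V} :
    (Om π₀⁻¹ (P.image π₀)).card = (Om π₀ P).card := by
  have := Om_inv (π₀ := π₀) (P := P) (F := fun _ => 1)
  simp only [sum_const, nsmul_eq_mul, mul_one] at this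
  exact_mod_cast this.symm

lemma sum_P {Y : Finset V} {ι : Type*} [Fintype ι] {u : ι → V} (hu : Function.Injective u)
    (huY : ∀ i, u i ∉ Y) (f : V → ℝ) :
    ∑ b ∈ Y ∪ univ.image u, f b = ∑ y : Y, f y + ∑ i, f (u i) := by
  have hd : Disjoint Y (univ.image u) := by
    rw [disjoint_left]
    intro a ha ha'
    obtain ⟨i, _, rfl⟩ := mem_image.mp ha'
    exact huY i ha
  rw [sum_union hd, sum_image (fun i _ j _ h => hu h), ← sum_coe_sort]

lemma coll_card (G H : SimpleGraph V) (π : Perm V) :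
    ((coll G H π).card : ℝ) = ∑ b, ∑ b', ad H b b' * ad G (π b) (π b') := by
  unfold coll
  rw [card_filter, Nat.cast_sum, Fintype.sum_prod_type]
  apply Finset.sum_congr rfl; intro b _
  apply Finset.sum_congr rfl; intro b' _
  unfold ad
  by_cases h1 : H.Adj b b' <;> by_cases h2 : G.Adj (π b) (π b') <;> simp [h1, h2]

lemma Dg_real (G H : SimpleGraph V) (π : Perm V) (c : V) :
    ((Dg G H π c : ℕ) : ℝ) = ∑ z, ad H c z * G.degree (π z) +
      ∑ w, ad G (π c) w * H.degree (π⁻¹ w) := by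
  unfold Dg
  push_cast
  congr 1
  · rw [sum_filter]
    apply Finset.sum_congr rfl; intro z _
    unfold ad
    split <;> simp
  · rw [sum_filter]
    apply Fintype.sum_equiv π
    intro z
    rw [show π⁻¹ (π z) = z from π.symm_apply_apply z]
    unfold ad
    split <;> simp

lemma F1_zero_adj {ι : Type*} [Fintype ι] {G : SimpleGraph V} {v : ι → V} (h : F1 G v = 0) {i j : ι} (hij : i ≠ j) :
    ¬ G.Adj (v i) (v j) := by
  intro hadj
  have h4 : (if i = j then 0 else ad G (v i) (v j)) ≤ ∑ j, if i = j then 0 else ad G (v i) (v j) :=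
    single_le_sum (f := fun j => if i = j then 0 else ad G (v i) (v j))
      (fun j _ => by split; exact le_refl _; exact ad_nonneg _ _ _) (mem_univ j)
  have h5 : (∑ j, if i = j then 0 else ad G (v i) (v j)) ≤ F1 G v :=
    single_le_sum (f := fun i => ∑ j, if i = j then 0 else ad G (v i) (v j))
      (fun i _ => sum_nonneg (fun j _ => by split; exact le_refl _; exact ad_nonneg _ _ _)) (mem_univ i)
  rw [if_neg hij] at h4
  unfold ad at h4
  rw [if_pos hadj] at h4
  unfold ad at h5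
  linarith

theorem assemble (G H : SimpleGraph V) {X Y : Finset V} {u : X → V} {v : Y → V}
    (hu : Function.Injective u) (hv : Function.Injective v) (huY : ∀ x, u x ∉ Y)
    (hvX : ∀ y, v y ∉ X) {δ : ℕ} {S M1 M2 A η C2 C3 C4 A1 : ℝ}
    (hGd : ∀ z ∉ X, G.degree z ≤ δ) (hHd : ∀ c ∉ Y, H.degree c ≤ δ)
    (hGA : ∀ z, (G.degree z : ℝ) ≤ A) (hHA : ∀ z, (H.degree z : ℝ) ≤ A)
    (hSG : ∑ v, (G.degree v : ℝ) ≤ S) (hSH : ∑ v, (H.degree v : ℝ) ≤ S)
    (hU1 : F1 H u = 0) (hV1 : F1 G v = 0)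
    (hU2 : F2 H (fun x : X => (G.degree (x : V) : ℝ)) u ≤ C2)
    (hV2 : F2 G (fun y : Y => (H.degree (y : V) : ℝ)) v ≤ C2)
    (hU3 : F3 H Y (fun x : X => (G.degree (x : V) : ℝ)) u ≤ C3)
    (hV3 : F3 G X (fun y : Y => (H.degree (y : V) : ℝ)) v ≤ C3)
    (hU4 : F4 H u ≤ C4) (hV4 : F4 G v ≤ C4)
    (hXY : ∀ (x : X) (y : Y), ¬ (G.Adj (v y) x ∧ H.Adj (u x) y))
    (hM1 : 0 < M1) (hM1' : M1 ≤ ((Fintype.card V - (X.card + Y.card) : ℕ) : ℝ))
    (hM2 : 0 < M2) (hM2' : M2 ≤ (((Fintype.card V - (X.card + Y.card)) *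
      (Fintype.card V - (X.card + Y.card)) - (Fintype.card V - (X.card + Y.card)) : ℕ) : ℝ))
    (hA1 : 0 < A1) (hη : 0 < η)
    (n1 : 2 * (2 * C2 / M1) + S ^ 2 / M2 ≤ A1 / 4)
    (n2 : C3 + 2 * (S / M1 * δ * C2) + S ^ 2 / M2 * (δ * S) ≤ η ^ 2 / 4)
    (n3 : C4 ^ 2 / M1 < 1 / 4)
    (n4 : 2 * C4 + (A + η) + (δ + η) + 4 * δ * A1 + 2 * δ + (X.card + Y.card) + 1 <
      Fintype.card V) :
    ∃ σ : Perm V, ∀ a b, H.Adj a b → ¬ G.Adj (σ a) (σ b) := by
  obtain ⟨π₀, hx0, hy0⟩ := exists_base hu hv huY hvX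
  set P : Finset V := Y ∪ univ.image u with hP
  set P' : Finset V := X ∪ univ.image v with hP'
  have hPP' : P.image π₀ = P' := image_P hx0 hy0
  have hA0 : 0 ≤ A := by
    by_cases hV : Nonempty V
    · obtain ⟨z⟩ := hV
      exact (Nat.cast_nonneg _).trans (hGA z)
    · exfalso
      have hc : Fintype.card V = 0 := by
        rw [Fintype.card_eq_zero_iff]; exact not_nonempty_iff.mp hV
      rw [hc] at hM1'
      simp at hM1'
      linarith
  have hS0 : 0 ≤ S := (sum_nonneg (fun v _ => Nat.cast_nonneg _)).trans hSG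
  have hC4 : 0 ≤ C4 := (F4_nonneg _ _).trans hU4
  have hC2 : 0 ≤ C2 := (F2_nonneg _ (fun _ => Nat.cast_nonneg _) _).trans hU2
  -- cardinalities
  have hPc : P.card = X.card + Y.card := by
    rw [hP, card_union_of_disjoint, card_image_of_injective _ hu, card_univ, Fintype.card_coe]
    · omega
    · rw [disjoint_left]
      intro a ha ha'
      obtain ⟨i, _, rfl⟩ := mem_image.mp ha'
      exact huY i ha
  have hP'c : P'.card = X.card + Y.card := by
    rw [← hPP', card_image_of_injective _ π₀.injective, hPc]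
  have hFr : (Fr π₀ P).card = Fintype.card V - (X.card + Y.card) := by rw [card_Fr, hPc]
  have hFr' : (Fr π₀⁻¹ P').card = Fintype.card V - (X.card + Y.card) := by rw [card_Fr, hP'c]
  have hM1a : M1 ≤ ((Fr π₀ P).card : ℝ) := by rw [hFr]; exact hM1'
  have hM1b : M1 ≤ ((Fr π₀⁻¹ P').card : ℝ) := by rw [hFr']; exact hM1'
  have hM2a : M2 ≤ ((Fr π₀ P).offDiag.card : ℝ) := by rw [offDiag_card, hFr]; exact hM2'
  have hM2b : M2 ≤ ((Fr π₀⁻¹ P').offDiag.card : ℝ) := by rw [offDiag_card, hFr']; exact hM2'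
  set N : ℝ := ((Om π₀ P).card : ℝ) with hN
  have hNpos : 0 < N := by
    rw [hN]; exact_mod_cast (card_pos.mpr (Om_nonempty π₀ P))
  -- average number of collisions
  have avg1 : ∑ π ∈ Om π₀ P, ((coll G H π).card : ℝ) ≤ N * (2 * (2 * C2 / M1) + S ^ 2 / M2) := by
    have main := pairE (π₀ := π₀) (P := P) (κ := ad H) (ad_nonneg H)
      (fun b => by unfold ad; simp) (g := ad G) (ad_nonneg G) hM1 hM1a hM2 hM2a
    simp only [coll_card]
    refine main.trans (mul_le_mul_of_nonneg_left ?_ hNpos.le)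
    have p1 : ∑ b ∈ P, ∑ b' ∈ P, ad H b b' * ad G (π₀ b) (π₀ b') = 0 := by
      apply sum_eq_zero; intro b hb
      apply sum_eq_zero; intro b' hb'
      by_contra hne
      have hH : H.Adj b b' := by
        by_contra h; apply hne; unfold ad; rw [if_neg h]; simp
      have hG : G.Adj (π₀ b) (π₀ b') := by
        by_contra h; apply hne; unfold ad; rw [if_neg h]; simp
      rw [hP, mem_union, mem_image] at hb hb'
      rcases hb with hb | ⟨x, -, rfl⟩ <;> rcases hb' with hb' | ⟨x', -, rfl⟩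
      · have e1 := hy0 ⟨b, hb⟩
        have e2 := hy0 ⟨b', hb'⟩
        simp only at e1 e2
        rw [e1, e2] at hG
        refine F1_zero_adj hV1 (i := ⟨b, hb⟩) (j := ⟨b', hb'⟩) ?_ hG
        intro h
        have : b = b' := by simpa using h
        subst this
        exact H.loopless.irrefl _ hH
      · have e1 := hy0 ⟨b, hb⟩
        simp only at e1
        rw [e1, hx0] at hG
        exact hXY x' ⟨b, hb⟩ ⟨hG, hH.symm⟩
      · have e1 := hy0 ⟨b', hb'⟩
        simp only at e1
        rw [e1, hx0] at hG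
        exact hXY x ⟨b', hb'⟩ ⟨hG.symm, hH⟩
      · refine F1_zero_adj hU1 (i := x) (j := x') ?_ hH
        intro h
        subst h
        exact H.loopless.irrefl _ hH
    have degP : ∑ b ∈ P, (H.degree b : ℝ) * G.degree (π₀ b) ≤ 2 * C2 := by
      rw [hP, sum_P hu huY]
      have e1 : ∑ y : Y, (H.degree (y : V) : ℝ) * G.degree (π₀ y) ≤ C2 := by
        refine le_trans (le_of_eq ?_) hV2
        unfold F2
        exact Finset.sum_congr rfl (fun y _ => by rw [hy0 y])
      have e2 : ∑ x : X, (H.degree (u x) : ℝ) * G.degree (π₀ (u x)) ≤ C2 := by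
        refine le_trans (le_of_eq ?_) hU2
        unfold F2
        exact Finset.sum_congr rfl (fun x _ => by rw [hx0 x, mul_comm])
      linarith
    have p2 : ∑ b ∈ P, ∑ b' ∈ Pᶜ, ad H b b' * ((∑ z, ad G (π₀ b) z) / M1) ≤ 2 * C2 / M1 := by
      calc _ ≤ ∑ b ∈ P, (H.degree b : ℝ) * G.degree (π₀ b) / M1 := by
            apply sum_le_sum; intro b _
            rw [← sum_mul, sum_ad, mul_div_assoc]
            apply mul_le_mul_of_nonneg_right _ (by positivity)
            rw [← sum_ad]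
            exact sum_le_sum_of_subset_of_nonneg (subset_univ _) (fun _ _ _ => ad_nonneg _ _ _)
        _ = (∑ b ∈ P, (H.degree b : ℝ) * G.degree (π₀ b)) / M1 := by rw [sum_div]
        _ ≤ _ := div_le_div_of_nonneg_right degP hM1.le
    have p3 : ∑ b ∈ Pᶜ, ∑ b' ∈ P, ad H b b' * ((∑ z, ad G z (π₀ b')) / M1) ≤ 2 * C2 / M1 := by
      rw [sum_comm]
      refine le_trans (le_of_eq ?_) p2
      apply Finset.sum_congr rfl; intro b _
      apply Finset.sum_congr rfl; intro b' _
      rw [ad_comm H]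
      congr 2
      exact Finset.sum_congr rfl (fun z _ => ad_comm _ _ _)
    have p4 : ∑ b ∈ Pᶜ, ∑ b' ∈ Pᶜ, ad H b b' * ((∑ z, ∑ z', ad G z z') / M2) ≤ S ^ 2 / M2 := by
      simp only [← sum_mul, sum_ad]
      have e1 : ∑ b ∈ Pᶜ, ∑ b' ∈ Pᶜ, ad H b b' ≤ S := by
        calc _ ≤ ∑ b ∈ Pᶜ, (H.degree b : ℝ) := by
              apply sum_le_sum; intro b _
              rw [← sum_ad]
              exact sum_le_sum_of_subset_of_nonneg (subset_univ _) (fun _ _ _ => ad_nonneg _ _ _)
          _ ≤ ∑ b, (H.degree b : ℝ) :=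
              sum_le_sum_of_subset_of_nonneg (subset_univ _) (fun _ _ _ => Nat.cast_nonneg _)
          _ ≤ S := hSH
      calc _ ≤ S * (S / M2) := by
            apply mul_le_mul e1 (div_le_div_of_nonneg_right hSG hM2.le)
            · apply div_nonneg _ hM2.le
              exact sum_nonneg fun _ _ => Nat.cast_nonneg _
            · exact hS0
        _ = _ := by ring
    rw [p1]
    linarith
  have avg2 : ∑ π ∈ Om π₀ P, Phi G H Y P π ≤
      N * (C3 + 2 * (S / M1 * δ * C2) + S ^ 2 / M2 * (δ * S)) := by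
    refine avg_Phi G H hu huY hP (Nat.cast_nonneg _) (fun c hc => ?_) hSG hSH hM1 hM1a hM2 hM2a ?_ ?_
    · have : c ∉ Y := fun h => hc (by rw [hP]; exact mem_union_left _ h)
      exact_mod_cast hHd c this
    · have e : (fun i => ((G.degree (π₀ (u i)) : ℕ) : ℝ)) = fun x : X => (G.degree (x : V) : ℝ) := by
        funext i; rw [hx0]
      rw [e]; exact hU2
    · have e : (fun i => ((G.degree (π₀ (u i)) : ℕ) : ℝ)) = fun x : X => (G.degree (x : V) : ℝ) := by
        funext i; rw [hx0]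
      rw [e]; exact hU3
  have hy0' : ∀ y : Y, π₀⁻¹ (v y) = y := by
    intro y; rw [← hy0 y]; exact π₀.symm_apply_apply _
  have avg3 : ∑ π ∈ Om π₀ P, Phi H G X P' π⁻¹ ≤
      N * (C3 + 2 * (S / M1 * δ * C2) + S ^ 2 / M2 * (δ * S)) := by
    rw [Om_inv (F := fun π => Phi H G X P' π), hPP', hN, ← card_Om_inv, hPP']
    refine avg_Phi H G hv hvX hP' (Nat.cast_nonneg _) (fun c hc => ?_) hSH hSG hM1 hM1b hM2 hM2b ?_ ?_
    · have : c ∉ X := fun h => hc (by rw [hP']; exact mem_union_left _ h)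
      exact_mod_cast hGd c this
    · have e : (fun i => ((H.degree (π₀⁻¹ (v i)) : ℕ) : ℝ)) = fun y : Y => (H.degree (y : V) : ℝ) := by
        funext i; rw [hy0']
      rw [e]; exact hV2
    · have e : (fun i => ((H.degree (π₀⁻¹ (v i)) : ℕ) : ℝ)) = fun y : Y => (H.degree (y : V) : ℝ) := by
        funext i; rw [hy0']
      rw [e]; exact hV3
  -- special vertices do not meet
  let Z : Perm V → ℝ := fun π => ∑ c ∈ Pᶜ, ∑ x : X, ∑ y : Y, ad H c (u x) * ad G (π c) (v y)
  have avg4 : ∑ π ∈ Om π₀ P, Z π ≤ N * (C4 ^ 2 / M1) := by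
    simp only [Z]
    rw [sum_comm]
    calc _ ≤ ∑ c ∈ Pᶜ, N * ∑ x : X, ∑ y : Y, ad H c (u x) * ((G.degree (v y) : ℝ) / M1) := by
          apply sum_le_sum; intro c hc
          rw [sum_comm, mul_sum]
          apply sum_le_sum; intro x _
          rw [sum_comm, mul_sum]
          apply sum_le_sum; intro y _
          rw [← mul_sum]
          have := sum_single_le (π₀ := π₀) (P := P) (b := c) (by simpa using hc)
            (fun z => ad G z (v y)) (fun z => ad_nonneg _ _ _) hM1 hM1a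
          have e1 : ∑ z, ad G z (v y) = G.degree (v y) := by
            rw [← sum_ad]; exact Finset.sum_congr rfl (fun z _ => ad_comm _ _ _)
          rw [e1] at this
          calc _ ≤ ad H c (u x) * (N * ((G.degree (v y) : ℝ) / M1)) :=
                mul_le_mul_of_nonneg_left this (ad_nonneg _ _ _)
            _ = _ := by ring
      _ = N * ((∑ x : X, ∑ c ∈ Pᶜ, ad H c (u x)) * ((∑ y : Y, (G.degree (v y) : ℝ)) / M1)) := by
          rw [← mul_sum]
          congr 1
          rw [sum_comm, sum_mul]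
          apply Finset.sum_congr rfl; intro x _
          rw [sum_mul]
          apply Finset.sum_congr rfl; intro c _
          rw [sum_div, mul_sum]
      _ ≤ N * (C4 * (C4 / M1)) := by
          apply mul_le_mul_of_nonneg_left _ hNpos.le
          apply mul_le_mul
          · refine le_trans ?_ hU4
            unfold F4
            apply sum_le_sum; intro x _
            rw [← sum_ad, Finset.sum_congr rfl (fun c _ => ad_comm H c (u x))]
            exact sum_le_sum_of_subset_of_nonneg (subset_univ _) (fun _ _ _ => ad_nonneg _ _ _)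
          · exact div_le_div_of_nonneg_right hV4 hM1.le
          · exact div_nonneg (sum_nonneg fun _ _ => Nat.cast_nonneg _) hM1.le
          · exact hC4
      _ = _ := by ring
  have hZ0 : ∀ π, 0 ≤ Z π := fun π =>
    sum_nonneg fun c _ => sum_nonneg fun x _ => sum_nonneg fun y _ =>
      mul_nonneg (ad_nonneg _ _ _) (ad_nonneg _ _ _)
  -- choice of the completion
  have hη2 : 0 < η ^ 2 := by positivity
  obtain ⟨π, hπ, hlt⟩ : ∃ π ∈ Om π₀ P, ((coll G H π).card : ℝ) / A1 + Phi G H Y P π / η ^ 2 +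
      Phi H G X P' π⁻¹ / η ^ 2 + Z π < 1 := by
    by_contra hcon
    push Not at hcon
    have h1 : N * 1 ≤ ∑ π ∈ Om π₀ P, (((coll G H π).card : ℝ) / A1 + Phi G H Y P π / η ^ 2 +
      Phi H G X P' π⁻¹ / η ^ 2 + Z π) := by
      calc N * 1 = ∑ π ∈ Om π₀ P, (1 : ℝ) := by simp [hN]
        _ ≤ _ := sum_le_sum hcon
    rw [sum_add_distrib, sum_add_distrib, sum_add_distrib, ← sum_div, ← sum_div, ← sum_div] at h1
    have b1 : (∑ π ∈ Om π₀ P, ((coll G H π).card : ℝ)) / A1 ≤ N * (1/4) := by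
      rw [div_le_iff₀ hA1]
      calc _ ≤ N * (2 * (2 * C2 / M1) + S ^ 2 / M2) := avg1
        _ ≤ N * (A1 / 4) := mul_le_mul_of_nonneg_left n1 hNpos.le
        _ = _ := by ring
    have b2 : (∑ π ∈ Om π₀ P, Phi G H Y P π) / η ^ 2 ≤ N * (1/4) := by
      rw [div_le_iff₀ hη2]
      calc _ ≤ _ := avg2
        _ ≤ N * (η ^ 2 / 4) := mul_le_mul_of_nonneg_left n2 hNpos.le
        _ = _ := by ring
    have b3 : (∑ π ∈ Om π₀ P, Phi H G X P' π⁻¹) / η ^ 2 ≤ N * (1/4) := by
      rw [div_le_iff₀ hη2]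
      calc _ ≤ _ := avg3
        _ ≤ N * (η ^ 2 / 4) := mul_le_mul_of_nonneg_left n2 hNpos.le
        _ = _ := by ring
    have b4 : ∑ π ∈ Om π₀ P, Z π < N * (1/4) := by
      calc _ ≤ _ := avg4
        _ < _ := mul_lt_mul_of_pos_left n3 hNpos
    linarith
  have q1 : 0 ≤ ((coll G H π).card : ℝ) / A1 := by positivity
  have q2 : 0 ≤ Phi G H Y P π / η ^ 2 := div_nonneg (Phi_nonneg _ _ _ _ _) hη2.le
  have q3 : 0 ≤ Phi H G X P' π⁻¹ / η ^ 2 := div_nonneg (Phi_nonneg _ _ _ _ _) hη2.le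
  have q4 := hZ0 π
  have r1 : ((coll G H π).card : ℝ) < A1 := by
    have : ((coll G H π).card : ℝ) / A1 < 1 := by linarith
    rwa [div_lt_one hA1] at this
  have r2 : Phi G H Y P π ≤ η ^ 2 := by
    have : Phi G H Y P π / η ^ 2 ≤ 1 := by linarith
    rwa [div_le_one hη2] at this
  have r3 : Phi H G X P' π⁻¹ ≤ η ^ 2 := by
    have : Phi H G X P' π⁻¹ / η ^ 2 ≤ 1 := by linarith
    rwa [div_le_one hη2] at this
  have r4 : Z π < 1 := by linarith
  have r4' : ∀ c ∉ P, ∀ x : X, ∀ y : Y, H.Adj c (u x) → ¬ G.Adj (π c) (v y) := by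
    intro c hc x y h1 h2
    have e1 : ad H c (u x) * ad G (π c) (v y) = 1 := by unfold ad; rw [if_pos h1, if_pos h2]; simp
    have e2 : ad H c (u x) * ad G (π c) (v y) ≤ ∑ y : Y, ad H c (u x) * ad G (π c) (v y) :=
      single_le_sum (f := fun y => ad H c (u x) * ad G (π c) (v y))
        (fun _ _ => mul_nonneg (ad_nonneg _ _ _) (ad_nonneg _ _ _)) (mem_univ y)
    have e3 : ∑ y : Y, ad H c (u x) * ad G (π c) (v y) ≤
        ∑ x : X, ∑ y : Y, ad H c (u x) * ad G (π c) (v y) :=
      single_le_sum (f := fun x => ∑ y : Y, ad H c (u x) * ad G (π c) (v y))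
        (fun _ _ => sum_nonneg fun _ _ => mul_nonneg (ad_nonneg _ _ _) (ad_nonneg _ _ _)) (mem_univ x)
    have e4 : ∑ x : X, ∑ y : Y, ad H c (u x) * ad G (π c) (v y) ≤ Z π :=
      single_le_sum (f := fun c => ∑ x : X, ∑ y : Y, ad H c (u x) * ad G (π c) (v y))
        (fun _ _ => sum_nonneg fun _ _ => sum_nonneg fun _ _ =>
          mul_nonneg (ad_nonneg _ _ _) (ad_nonneg _ _ _)) (by simpa using hc)
    linarith
  rw [mem_Om] at hπ
  have hπx : ∀ x : X, π (u x) = x := by
    intro x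
    rw [hπ (u x) (by rw [hP]; exact mem_union_right _ (mem_image_of_mem _ (mem_univ x))), hx0]
  have hπy : ∀ y : Y, π y = v y := by
    intro y
    rw [hπ y (by rw [hP]; exact mem_union_left _ y.2), hy0]
  have hsumY : ∑ z ∈ Y, (G.degree (π z) : ℝ) ≤ C4 := by
    refine le_trans (le_of_eq ?_) hV4
    unfold F4
    rw [← sum_coe_sort]
    exact Finset.sum_congr rfl (fun y _ => by rw [hπy])
  have hsumX : ∑ z ∈ X, (H.degree (π⁻¹ z) : ℝ) ≤ C4 := by
    refine le_trans (le_of_eq ?_) hU4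
    unfold F4
    rw [← sum_coe_sort]
    apply Finset.sum_congr rfl
    intro x _
    have h1 : π.symm (π (u x)) = u x := π.symm_apply_apply _
    rw [hπx x] at h1
    have : π⁻¹ (x : V) = u x := h1
    rw [this]
  have hδ0 : (0 : ℝ) ≤ δ := Nat.cast_nonneg _
  have hq : ∀ D : ℝ, 0 ≤ D → η ^ 2 ≤ (D + η) * η := by
    intro D hD
    have := mul_nonneg hD hη.le
    linarith [sq η, add_mul D η η]
  have hDbound : ∀ c ∉ P, ((Dg G H π c : ℕ) : ℝ) ≤ 2 * C4 + (A + η) + (δ + η) := by
    intro c hc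
    have hc' : π c ∉ P' := by
      intro h
      rw [← hPP'] at h
      obtain ⟨b, hb, hb2⟩ := mem_image.mp h
      rw [← hπ b hb] at hb2
      exact hc (π.injective hb2 ▸ hb)
    rw [Dg_real]
    by_cases hcu : ∃ x : X, H.Adj c (u x)
    · obtain ⟨x, hx⟩ := hcu
      have s1 := nbr_sum_bound G H (Y := Y) (P := P) (π := π) hc hη.le hA0
        (fun z _ _ => hGA _) (r2.trans (hq A hA0)) hsumY
      have s2 := nbr_sum_bound H G (Y := X) (P := P') (π := π⁻¹) hc' (D := δ) hη.le hδ0
        (fun w hw hadj => by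
          have : π⁻¹ w ∉ Y := by
            intro hmem
            have e := hπy ⟨_, hmem⟩
            simp at e
            rw [e] at hadj
            exact r4' c hc x _ hx hadj
          exact_mod_cast hHd _ this) (r3.trans (hq δ hδ0)) hsumX
      linarith
    · push Not at hcu
      have s1 := nbr_sum_bound G H (Y := Y) (P := P) (π := π) hc (D := δ) hη.le hδ0
        (fun z _ hadj => by
          have : π z ∉ X := by
            intro hmem
            have e := hπx ⟨_, hmem⟩
            simp only at e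
            have e2 := π.injective e
            have hx : ∀ x : X, u x = z → False := fun x h => hcu x (h ▸ hadj)
            exact hx _ e2
          exact_mod_cast hGd _ this) (r2.trans (hq δ hδ0)) hsumY
      have s2 := nbr_sum_bound H G (Y := X) (P := P') (π := π⁻¹) hc' hη.le hA0
        (fun w _ _ => hHA _) (r3.trans (hq A hA0)) hsumX
      linarith
  -- swapping
  have hB0 : 0 ≤ 2 * C4 + (A + η) + (δ + η) := by positivity
  refine swap_all G H P δ (fun c hc => hHd c (fun h => hc (by rw [hP]; exact mem_union_left _ h)))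
    (coll G H π).card π ⌊2 * C4 + (A + η) + (δ + η)⌋₊ le_rfl ?_ ?_ ?_ ?_
  · -- no collision inside P
    intro p hp hcon
    rw [mem_coll] at hp
    obtain ⟨hH, hG⟩ := hp
    obtain ⟨hb, hb'⟩ := hcon
    rw [hP, mem_union, mem_image] at hb hb'
    obtain ⟨b, b'⟩ := p
    simp only at hH hG hb hb'
    rcases hb with hb | ⟨x, -, rfl⟩ <;> rcases hb' with hb' | ⟨x', -, rfl⟩
    · have e1 := hπy ⟨b, hb⟩
      have e2 := hπy ⟨b', hb'⟩
      simp only at e1 e2
      rw [e1, e2] at hG
      refine F1_zero_adj hV1 (i := ⟨b, hb⟩) (j := ⟨b', hb'⟩) ?_ hG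
      intro h
      have : b = b' := by simpa using h
      subst this
      exact H.loopless.irrefl _ hH
    · have e1 := hπy ⟨b, hb⟩
      simp only at e1
      rw [e1, hπx] at hG
      exact hXY x' ⟨b, hb⟩ ⟨hG, hH.symm⟩
    · have e1 := hπy ⟨b', hb'⟩
      simp only at e1
      rw [e1, hπx] at hG
      exact hXY x ⟨b', hb'⟩ ⟨hG.symm, hH⟩
    · refine F1_zero_adj hU1 (i := x) (j := x') ?_ hH
      intro h
      subst h
      exact H.loopless.irrefl _ hH
  · intro c hc
    apply hGd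
    intro hmem
    have e := hπx ⟨_, hmem⟩
    simp only at e
    have e2 := π.injective e
    apply hc
    rw [← e2, hP]
    exact mem_union_right _ (mem_image_of_mem _ (mem_univ _))
  · intro c hc _
    exact Nat.le_floor (hDbound c hc)
  · have f1 := Nat.floor_le hB0
    have f2 : (4 * δ * (coll G H π).card : ℝ) ≤ 4 * δ * A1 :=
      mul_le_mul_of_nonneg_left r1.le (by positivity)
    have goal : ((⌊2 * C4 + (A + η) + (δ + η)⌋₊ + 4 * δ * (coll G H π).card + 2 * δ + P.card + 1 : ℕ) : ℝ) <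
        Fintype.card V := by
      push_cast
      rw [hPc]
      push_cast
      linarith
    exact_mod_cast goal

end Pool.Agent.H.MP_d03aa7_co
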