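import Mathlib

/-! The block argument. -/

namespace Pool.Agent.H.MP_d03aa7_co

open Finset Equiv Classical

variable {W ι β : Type*} [Fintype W] [DecidableEq W] [Fintype ι] [DecidableEq ι] [Fintype β]

/-- a tuple of `𝒱` fits the patterns `R` -/
def fitR (Fit : W → β → Prop) (𝒱 : Set (ι → W)) (R : ι → β) : Prop :=
  ∃ v ∈ 𝒱, ∀ i, Fit (v i) (R i)

/-- splitting off the blocks -/
noncomputable def splitEquiv (n : ℕ) (e : Fin n × ι ↪ W) :
    (W → β) ≃ (Fin n → ι → β) × ({x // ¬ x ∈ Set.range e} → β) :=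
  (Equiv.piEquivPiSubtypeProd (fun x => x ∈ Set.range e) (fun _ => β)).trans
    (Equiv.prodCongr (((Equiv.ofInjective e e.injective).symm.arrowCongr (Equiv.refl β)).trans
      (Equiv.curry _ _ _)) (Equiv.refl _))

lemma splitEquiv_fst (n : ℕ) (e : Fin n × ι ↪ W) (ρ : W → β) (k : Fin n) (i : ι) :
    (splitEquiv n e ρ).1 k i = ρ (e (k, i)) := by
  simp [splitEquiv, Equiv.arrowCongr, Equiv.curry, Function.curry]

lemma sum_blocks (n : ℕ) (e : Fin n × ι ↪ W) (g : (ι → β) → ℕ) :
    ∑ ρ : W → β, ∏ k : Fin n, g (fun i => ρ (e (k, i))) =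
      Fintype.card ({x // ¬ x ∈ Set.range e} → β) * (∑ R, g R) ^ n := by
  rw [Fintype.sum_pow]
  have h1 : ∑ ρ : W → β, ∏ k : Fin n, g (fun i => ρ (e (k, i))) =
      ∑ q : (Fin n → ι → β) × ({x // ¬ x ∈ Set.range e} → β), ∏ k : Fin n, g (q.1 k) := by
    apply Fintype.sum_equiv (splitEquiv n e)
    intro ρ
    apply Finset.prod_congr rfl
    intro k _
    congr 1
  rw [h1, Fintype.sum_prod_type]
  simp only [sum_const, smul_eq_mul, ← mul_sum]
  rfl

lemma card_split (n : ℕ) (e : Fin n × ι ↪ W) :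
    Fintype.card (W → β) =
      Fintype.card (ι → β) ^ n * Fintype.card ({x // ¬ x ∈ Set.range e} → β) := by
  rw [Fintype.card_congr (splitEquiv (β := β) n e), Fintype.card_prod]
  congr 1
  rw [Fintype.card_fun, Fintype.card_fin]

lemma card_SF (Fit : W → β → Prop) (𝒱 : Set (ι → W)) (m : ℕ) (e : Fin (8*m) × ι ↪ W)
    (hq : 2 * (univ.filter (fun R : ι → β => fitR Fit 𝒱 R)).card ≤ Fintype.card (ι → β)) :
    (univ.filter (fun ρ : W → β => (univ.filter (fun k : Fin (8*m) =>
      ¬ fitR Fit 𝒱 (fun i => ρ (e (k, i))))).card ≤ m)).card * 10 ^ m ≤ Fintype.card (W → β) := by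
  set A := Fintype.card (ι → β) with hA
  set c := Fintype.card ({x // ¬ x ∈ Set.range e} → β) with hc
  set g : (ι → β) → ℕ := fun R => if fitR Fit 𝒱 R then 4 else 1 with hg
  set SF := univ.filter (fun ρ : W → β => (univ.filter (fun k : Fin (8*m) =>
      ¬ fitR Fit 𝒱 (fun i => ρ (e (k, i))))).card ≤ m) with hSF
  have hsum : 2 * ∑ R, g R ≤ 5 * A := by
    have h1 : ∑ R, g R = A + 3 * (univ.filter (fun R : ι → β => fitR Fit 𝒱 R)).card := by
      have : ∀ R, g R = 1 + 3 * (if fitR Fit 𝒱 R then 1 else 0) := by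
        intro R; simp only [hg]; split <;> simp
      rw [Finset.sum_congr rfl (fun R _ => this R), sum_add_distrib, ← mul_sum]
      simp [hA]
    omega
  have hlow : SF.card * 4 ^ (7*m) ≤ c * (∑ R, g R) ^ (8*m) := by
    rw [hc, ← sum_blocks (8*m) e g]
    calc SF.card * 4 ^ (7*m) = ∑ ρ ∈ SF, 4 ^ (7*m) := by simp
      _ ≤ ∑ ρ ∈ SF, ∏ k : Fin (8*m), g (fun i => ρ (e (k, i))) := by
          apply sum_le_sum
          intro ρ hρ
          rw [hSF, mem_filter] at hρ
          have h2 : ∏ k : Fin (8*m), g (fun i => ρ (e (k, i))) =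
              4 ^ (univ.filter (fun k : Fin (8*m) => fitR Fit 𝒱 (fun i => ρ (e (k, i))))).card := by
            simp only [hg]
            rw [prod_ite]
            simp
          rw [h2]
          apply Nat.pow_le_pow_right (by norm_num)
          have h3 := card_filter_add_card_filter_not (s := (univ : Finset (Fin (8*m))))
            (fun k : Fin (8*m) => fitR Fit 𝒱 (fun i => ρ (e (k, i))))
          rw [card_univ, Fintype.card_fin] at h3
          have h4 := hρ.2
          omega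
      _ ≤ _ := sum_le_sum_of_subset (subset_univ _)
  have hT : Fintype.card (W → β) = A ^ (8*m) * c := card_split (8*m) e
  rw [hT]
  have h5 : SF.card * (4^7*2^8)^m ≤ (5^8)^m * (A ^ (8*m) * c) := by
    calc SF.card * (4^7*2^8)^m = (SF.card * 4 ^ (7*m)) * 2 ^ (8*m) := by
          rw [mul_pow, ← pow_mul, ← pow_mul]; ring
      _ ≤ (c * (∑ R, g R) ^ (8*m)) * 2 ^ (8*m) := Nat.mul_le_mul_right _ hlow
      _ = c * (2 * ∑ R, g R) ^ (8*m) := by rw [mul_pow]; ring
      _ ≤ c * (5 * A) ^ (8*m) := Nat.mul_le_mul_left _ (Nat.pow_le_pow_left hsum _)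
      _ = (5^8)^m * (A ^ (8*m) * c) := by rw [mul_pow, ← pow_mul]; ring
  have h6 : (10 * 5^8)^m ≤ (4^7*2^8)^m := Nat.pow_le_pow_left (by norm_num) _
  have h7 : 0 < (4^7*2^8)^m := by positivity
  apply Nat.le_of_mul_le_mul_right _ h7
  calc SF.card * 10^m * (4^7*2^8)^m = 10^m * (SF.card * (4^7*2^8)^m) := by ring
    _ ≤ 10^m * ((5^8)^m * (A ^ (8*m) * c)) := Nat.mul_le_mul_left _ h5
    _ = (10 * 5^8)^m * (A ^ (8*m) * c) := by rw [mul_pow]; ring
    _ ≤ (4^7*2^8)^m * (A ^ (8*m) * c) := Nat.mul_le_mul_right _ h6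
    _ = A ^ (8*m) * c * (4^7*2^8)^m := by ring

/-- many permutations have few bad blocks -/
lemma card_good (𝒱 : Set (ι → W)) (m : ℕ) (e : Fin (8*m) × ι ↪ W)
    (hgood : ∀ k, 16 * (univ.filter (fun b : Perm W => (fun i => b (e (k, i))) ∉ 𝒱)).card ≤
      Fintype.card (Perm W)) :
    Fintype.card (Perm W) ≤ 2 * (univ.filter (fun b : Perm W =>
      (univ.filter (fun k : Fin (8*m) => (fun i => b (e (k, i))) ∉ 𝒱)).card ≤ m)).card := by
  set N := Fintype.card (Perm W) with hN
  set bad : Perm W → ℕ := fun b =>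
    (univ.filter (fun k : Fin (8*m) => (fun i => b (e (k, i))) ∉ 𝒱)).card with hbad
  have h1 : 2 * ∑ b : Perm W, bad b ≤ m * N := by
    have h2 : ∑ b : Perm W, bad b =
        ∑ k : Fin (8*m), (univ.filter (fun b : Perm W => (fun i => b (e (k, i))) ∉ 𝒱)).card := by
      simp only [hbad, card_filter]
      rw [sum_comm]
    have h3 : 16 * ∑ b : Perm W, bad b ≤ 8 * m * N := by
      rw [h2, mul_sum]
      calc _ ≤ ∑ k : Fin (8*m), N := sum_le_sum (fun k _ => hgood k)
        _ = 8 * m * N := by simp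
    have : 8 * m * N = 8 * (m * N) := by ring
    omega
  have h4 : (m+1) * (univ.filter (fun b : Perm W => ¬ bad b ≤ m)).card ≤ ∑ b : Perm W, bad b := by
    calc (m+1) * (univ.filter (fun b : Perm W => ¬ bad b ≤ m)).card =
          ∑ b ∈ univ.filter (fun b : Perm W => ¬ bad b ≤ m), (m+1) := by simp [mul_comm]
      _ ≤ ∑ b ∈ univ.filter (fun b : Perm W => ¬ bad b ≤ m), bad b := by
          apply sum_le_sum
          intro b hb
          have := (mem_filter.mp hb).2
          omega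
      _ ≤ ∑ b : Perm W, bad b := sum_le_sum_of_subset (subset_univ _)
  have h5 := card_filter_add_card_filter_not (s := (univ : Finset (Perm W))) (fun b => bad b ≤ m)
  rw [card_univ] at h5
  have h6 : (m+1) * (2 * (univ.filter (fun b : Perm W => ¬ bad b ≤ m)).card) ≤ (m+1) * N := by
    have : (m+1) * N = m * N + N := by ring
    have h7 : (m+1) * (2 * (univ.filter (fun b : Perm W => ¬ bad b ≤ m)).card) =
      2 * ((m+1) * (univ.filter (fun b : Perm W => ¬ bad b ≤ m)).card) := by ring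
    omega
  have h7 := Nat.le_of_mul_le_mul_left h6 (by omega)
  change N ≤ 2 * (univ.filter (fun b => bad b ≤ m)).card
  omega

theorem block_lemma (Fit : W → β → Prop) (𝒱 : Set (ι → W)) (m : ℕ) (e : Fin (8*m) × ι ↪ W)
    (hgood : ∀ k, 16 * (univ.filter (fun b : Perm W => (fun i => b (e (k, i))) ∉ 𝒱)).card ≤
      Fintype.card (Perm W))
    (hq : 2 * (univ.filter (fun R : ι → β => fitR Fit 𝒱 R)).card ≤ Fintype.card (ι → β)) :
    (univ.filter (fun ρ : W → β => ∃ f : Perm W, ∀ v, Fit v (ρ (f v)))).card * 10 ^ m ≤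
      2 * Fintype.card (W → β) := by
  set SF := univ.filter (fun ρ : W → β => (univ.filter (fun k : Fin (8*m) =>
      ¬ fitR Fit 𝒱 (fun i => ρ (e (k, i))))).card ≤ m) with hSF
  set PP := univ.filter (fun ρ : W → β => ∃ f : Perm W, ∀ v, Fit v (ρ (f v))) with hPP
  set N := Fintype.card (Perm W) with hN
  set g0 := (univ.filter (fun b : Perm W =>
      (univ.filter (fun k : Fin (8*m) => (fun i => b (e (k, i))) ∉ 𝒱)).card ≤ m)).card with hg0
  have hg : N ≤ 2 * g0 := card_good 𝒱 m e hgood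
  have h1 : ∀ ρ ∈ PP, g0 ≤ (univ.filter (fun τ : Perm W => (fun w => ρ (τ w)) ∈ SF)).card := by
    intro ρ hρ
    obtain ⟨f, hf⟩ := (mem_filter.mp hρ).2
    apply card_le_card_of_injOn (fun b => f * b)
    · intro b hb
      simp only [coe_filter, Set.mem_ofPred_eq, mem_univ, true_and] at hb ⊢
      rw [hSF, mem_filter]
      refine ⟨mem_univ _, le_trans (card_le_card ?_) hb⟩
      intro k hk
      simp only [mem_filter, mem_univ, true_and] at hk ⊢
      intro hk2
      apply hk
      exact ⟨_, hk2, fun i => hf _⟩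
    · intro a _ b _ h
      exact mul_left_cancel h
  have h2 : ∑ ρ : W → β, (univ.filter (fun τ : Perm W => (fun w => ρ (τ w)) ∈ SF)).card =
      N * SF.card := by
    simp only [card_filter]
    rw [sum_comm]
    have h3 : ∀ τ : Perm W, ∑ ρ : W → β, (if (fun w => ρ (τ w)) ∈ SF then 1 else 0) = SF.card := by
      intro τ
      have h4 : ∑ ρ : W → β, (if (fun w => ρ (τ w)) ∈ SF then 1 else 0) =
          ∑ ρ : W → β, (if ρ ∈ SF then 1 else 0) := by
        apply Fintype.sum_equiv (Equiv.arrowCongr τ.symm (Equiv.refl β))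
        intro ρ
        rfl
      rw [h4]; simp
    rw [Finset.sum_congr rfl (fun τ _ => h3 τ)]
    simp [hN]
  have h3 : PP.card * g0 ≤ N * SF.card := by
    rw [← h2]
    calc PP.card * g0 = ∑ ρ ∈ PP, g0 := by simp
      _ ≤ ∑ ρ ∈ PP, (univ.filter (fun τ : Perm W => (fun w => ρ (τ w)) ∈ SF)).card :=
          sum_le_sum h1
      _ ≤ _ := sum_le_sum_of_subset (subset_univ _)
  have hNpos : 0 < N := Fintype.card_pos
  have h4 : PP.card ≤ 2 * SF.card := by
    apply Nat.le_of_mul_le_mul_left _ hNpos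
    calc N * PP.card ≤ 2 * g0 * PP.card := Nat.mul_le_mul_right _ hg
      _ = 2 * (PP.card * g0) := by ring
      _ ≤ 2 * (N * SF.card) := Nat.mul_le_mul_left _ h3
      _ = N * (2 * SF.card) := by ring
  have h5 := card_SF Fit 𝒱 m e hq
  rw [← hSF] at h5
  calc PP.card * 10^m ≤ 2 * SF.card * 10^m := Nat.mul_le_mul_right _ h4
    _ = 2 * (SF.card * 10^m) := by ring
    _ ≤ _ := Nat.mul_le_mul_left _ h5

end Pool.Agent.H.MP_d03aa7_co
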