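import Mathlib
import Pool.Agent.H.MP_d03aa7_co.Block

/-! Reduction of the random graph to random patterns towards a small set. -/

namespace Pool.Agent.H.MP_d03aa7_co

open Finset Equiv Classical

variable {V : Type*} [Fintype V] [DecidableEq V]

/-- `K` contains a copy of `G` -/
def Emb (G K : SimpleGraph V) : Prop :=
  ∃ f : V → V, Function.Injective f ∧ ∀ u v, G.Adj u v → K.Adj (f u) (f v)

/-- `K` contains a copy of `G` in which the vertices of `X` stay fixed -/
def EmbX (G K : SimpleGraph V) (X : Finset V) : Prop :=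
  ∃ f : Perm V, (∀ x ∈ X, f x = x) ∧ ∀ u v, G.Adj u v → K.Adj (f u) (f v)

/-- a permutation extending `φ` -/
noncomputable def extP (X : Finset V) (φ : X → V) : Perm V :=
  if h : ∃ σ : Perm V, ∀ x : X, σ x = φ x then h.choose else 1

lemma extP_spec {X : Finset V} {φ : X → V} (h : ∃ σ : Perm V, ∀ x : X, σ x = φ x) (x : X) :
    extP X φ x = φ x := by
  unfold extP
  rw [dif_pos h]
  exact h.choose_spec x

lemma Emb.perm {G K : SimpleGraph V} (h : Emb G K) :
    ∃ f : Perm V, ∀ u v, G.Adj u v → K.Adj (f u) (f v) := by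
  obtain ⟨f, hf, h2⟩ := h
  exact ⟨Equiv.ofBijective f (Finite.injective_iff_bijective.mp hf), h2⟩

lemma emb_le (G : SimpleGraph V) (X : Finset V) :
    (univ.filter (fun K : SimpleGraph V => Emb G K)).card ≤
      Fintype.card V ^ X.card * (univ.filter (fun K : SimpleGraph V => EmbX G K X)).card := by
  have hF : ∀ K : SimpleGraph V, ∃ f : Perm V, Emb G K → ∀ u v, G.Adj u v → K.Adj (f u) (f v) := by
    intro K
    by_cases h : Emb G K
    · obtain ⟨f, hf⟩ := h.perm
      exact ⟨f, fun _ => hf⟩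
    · exact ⟨1, fun h2 => absurd h2 h⟩
  choose F hF using hF
  have key : (univ.filter (fun K : SimpleGraph V => Emb G K)).card ≤
      ((univ : Finset (X → V)) ×ˢ (univ.filter (fun K : SimpleGraph V => EmbX G K X))).card := by
    apply card_le_card_of_injOn
      (fun K => ((fun x : X => F K x), K.comap (extP X (fun x : X => F K x))))
    · intro K hK
      simp only [coe_filter, mem_univ, true_and, Set.mem_ofPred_eq] at hK
      simp only [coe_product, coe_univ, coe_filter, mem_univ, true_and, Set.mem_prod,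
        Set.mem_univ, Set.mem_ofPred_eq]
      have hex : ∃ σ : Perm V, ∀ x : X, σ x = (fun x : X => F K x) x := ⟨F K, fun _ => rfl⟩
      refine ⟨(extP X (fun x : X => F K x))⁻¹ * F K, ?_, ?_⟩
      · intro x hx
        have h := extP_spec hex ⟨x, hx⟩
        simp only at h
        rw [Perm.mul_apply, ← h]
        simp
      · intro u v huv
        rw [SimpleGraph.comap_adj]
        have h2 := hF K hK u v huv
        simpa [Perm.mul_apply] using h2
    · intro K _ K' _ h
      simp only [Prod.mk.injEq] at h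
      obtain ⟨h1, h2⟩ := h
      rw [h1] at h2
      ext a b
      set σ := extP X (fun x : X => F K' x)
      have h3 : (K.comap σ).Adj (σ⁻¹ a) (σ⁻¹ b) ↔ (K'.comap σ).Adj (σ⁻¹ a) (σ⁻¹ b) := by rw [h2]
      simpa using h3
  refine key.trans (le_of_eq ?_)
  rw [card_product, card_univ, Fintype.card_fun, Fintype.card_coe]

/-- adjacency pattern towards `X` -/
noncomputable def pat (X : Finset V) (K : SimpleGraph V) : {v // v ∉ X} → X → Bool :=
  fun w x => decide (K.Adj w x)

/-- the bipartite graph of a pattern -/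
def bipG (X : Finset V) (δ : {v // v ∉ X} → X → Bool) : SimpleGraph V :=
  SimpleGraph.fromRel (fun a b => ∃ (ha : a ∉ X) (hb : b ∈ X), δ ⟨a, ha⟩ ⟨b, hb⟩ = true)

lemma bipG_adj (X : Finset V) (δ : {v // v ∉ X} → X → Bool) (w : {v // v ∉ X}) (x : X) :
    (bipG X δ).Adj w x ↔ δ w x = true := by
  unfold bipG
  rw [SimpleGraph.fromRel_adj]
  constructor
  · rintro ⟨_, ⟨ha, hb, h⟩ | ⟨ha, hb, h⟩⟩
    · exact h
    · exact absurd hb w.2
  · intro h
    refine ⟨fun h2 => w.2 (h2 ▸ x.2), Or.inl ⟨w.2, x.2, h⟩⟩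

lemma pat_symmDiff (X : Finset V) (K : SimpleGraph V) (δ : {v // v ∉ X} → X → Bool) :
    pat X (symmDiff K (bipG X δ)) = fun w x => xor (pat X K w x) (δ w x) := by
  funext w x
  unfold pat
  have h := bipG_adj X δ w x
  rw [symmDiff_def]
  by_cases h1 : K.Adj w x <;> by_cases h2 : δ w x = true
  · simp [h, h1, h2]
  · simp [h, h1, h2]
  · simp [h, h1, h2]
  · simp [h, h1, h2]

lemma pat_uniform (X : Finset V) (PP : Finset ({v // v ∉ X} → X → Bool)) :
    (univ.filter (fun K : SimpleGraph V => pat X K ∈ PP)).card *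
      Fintype.card ({v // v ∉ X} → X → Bool) = PP.card * Fintype.card (SimpleGraph V) := by
  have h1 : ∑ δ : {v // v ∉ X} → X → Bool, ∑ K : SimpleGraph V,
      (if pat X (symmDiff K (bipG X δ)) ∈ PP then 1 else 0) =
      Fintype.card ({v // v ∉ X} → X → Bool) *
        (univ.filter (fun K : SimpleGraph V => pat X K ∈ PP)).card := by
    have h2 : ∀ δ : {v // v ∉ X} → X → Bool, ∑ K : SimpleGraph V,
        (if pat X (symmDiff K (bipG X δ)) ∈ PP then 1 else 0) =
        (univ.filter (fun K : SimpleGraph V => pat X K ∈ PP)).card := by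
      intro δ
      rw [card_filter]
      apply Finset.sum_bij (fun K _ => symmDiff K (bipG X δ))
      · intro K _; exact mem_univ _
      · intro a _ b _ h
        exact symmDiff_left_injective _ h
      · intro K _
        exact ⟨symmDiff K (bipG X δ), mem_univ _, symmDiff_symmDiff_cancel_right _ _⟩
      · intro K _; rfl
    rw [Finset.sum_congr rfl (fun δ _ => h2 δ)]
    simp
  have h3 : ∑ δ : {v // v ∉ X} → X → Bool, ∑ K : SimpleGraph V,
      (if pat X (symmDiff K (bipG X δ)) ∈ PP then 1 else 0) =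
      Fintype.card (SimpleGraph V) * PP.card := by
    rw [sum_comm]
    have h4 : ∀ K : SimpleGraph V, ∑ δ : {v // v ∉ X} → X → Bool,
        (if pat X (symmDiff K (bipG X δ)) ∈ PP then 1 else 0) = PP.card := by
      intro K
      have h5 : PP.card = ∑ δ : {v // v ∉ X} → X → Bool, (if δ ∈ PP then 1 else 0) := by simp
      rw [h5]
      apply Finset.sum_bij (fun δ _ => fun w x => xor (pat X K w x) (δ w x))
      · intro K _; exact mem_univ _
      · intro a _ b _ h
        funext w x
        have := congrFun (congrFun h w) x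
        simpa using this
      · intro δ _
        refine ⟨fun w x => xor (pat X K w x) (δ w x), mem_univ _, ?_⟩
        funext w x
        simp
      · intro δ _
        rw [pat_symmDiff]
    rw [Finset.sum_congr rfl (fun δ _ => h4 δ)]
    simp
  rw [h1] at h3
  linarith

/-- fitting of a vertex in a pattern -/
def FitG (G : SimpleGraph V) (X : Finset V) (v : {v // v ∉ X}) (r : X → Bool) : Prop :=
  ∀ x : X, G.Adj v x → r x = true

lemma EmbX.pat {G K : SimpleGraph V} {X : Finset V} (h : EmbX G K X) :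
    ∃ f : Perm {v // v ∉ X}, ∀ v, FitG G X v (pat X K (f v)) := by
  obtain ⟨f, h1, h2⟩ := h
  have h3 : ∀ v, v ∉ X ↔ f v ∉ X := by
    intro v
    constructor
    · intro hv hfv
      have := h1 _ hfv
      have := f.injective this
      exact hv (this ▸ hfv)
    · intro hfv hv
      rw [h1 v hv] at hfv
      exact hfv hv
  refine ⟨f.subtypePerm (fun v => (h3 v).symm), ?_⟩
  intro v x hvx
  unfold Pool.Agent.H.MP_d03aa7_co.pat
  have := h2 _ _ hvx
  rw [h1 x x.2] at this
  simpa using this

lemma arith0 {E T Q n s m PPc KP : ℕ} {α : ℝ} (hT : 0 < T) (hQ : 0 < Q)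
    (hG : α * T ≤ E) (h4 : E ≤ n ^ s * KP) (h2 : KP * Q = PPc * T) (h1 : PPc * 10 ^ m ≤ 2 * Q)
    (hm : 2 * (n : ℝ) ^ s < α * 10 ^ m) : False := by
  have h5 : E * Q * 10 ^ m ≤ n ^ s * (2 * Q * T) := by
    calc E * Q * 10 ^ m ≤ (n ^ s * KP) * Q * 10^m := by
          apply Nat.mul_le_mul_right
          apply Nat.mul_le_mul_right
          exact h4
      _ = n ^ s * (KP * Q) * 10^m := by ring
      _ = n ^ s * (PPc * T) * 10 ^ m := by rw [h2]
      _ = n ^ s * (PPc * 10 ^ m * T) := by ring
      _ ≤ n ^ s * (2 * Q * T) := by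
          apply Nat.mul_le_mul_left
          apply Nat.mul_le_mul_right
          exact h1
  have h5' : (E : ℝ) * Q * 10 ^ m ≤ (n : ℝ) ^ s * (2 * Q * T) := by exact_mod_cast h5
  have hT' : (0 : ℝ) < T := by exact_mod_cast hT
  have hQ' : (0 : ℝ) < Q := by exact_mod_cast hQ
  have h6 : (α * T) * Q * 10 ^ m ≤ (n : ℝ) ^ s * (2 * Q * T) := by
    calc (α * T) * Q * 10 ^ m ≤ (E : ℝ) * Q * 10 ^ m := by
          gcongr
      _ ≤ (n : ℝ) ^ s * (2 * Q * T) := h5'
  have h7 : (0 : ℝ) < T * Q := by positivity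
  have h8 : (α * 10 ^ m) * (T * Q) ≤ (2 * (n:ℝ) ^ s) * (T * Q) := by nlinarith
  have h9 := le_of_mul_le_mul_right h8 h7
  linarith

theorem key0 (G : SimpleGraph V) (X : Finset V) {ι : Type*} [Fintype ι] [DecidableEq ι] {α : ℝ}
    (hG : α * (Fintype.card (SimpleGraph V) : ℕ) ≤
      ((univ.filter (fun K : SimpleGraph V => Emb G K)).card : ℕ))
    (𝒱 : Set (ι → {v // v ∉ X})) (m : ℕ) (e : Fin (8*m) × ι ↪ {v // v ∉ X})
    (hgood : ∀ k, 16 * (univ.filter (fun b : Perm {v // v ∉ X} => (fun i => b (e (k, i))) ∉ 𝒱)).card ≤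
      Fintype.card (Perm {v // v ∉ X}))
    (hm : 2 * ((Fintype.card V : ℕ) : ℝ) ^ X.card < α * 10 ^ m) :
    Fintype.card (ι → X → Bool) <
      2 * (univ.filter (fun R : ι → X → Bool => fitR (FitG G X) 𝒱 R)).card := by
  by_contra hcon
  push Not at hcon
  have h1 := block_lemma (FitG G X) 𝒱 m e hgood hcon
  have h2 := pat_uniform X (univ.filter (fun ρ : {v // v ∉ X} → X → Bool =>
    ∃ f : Perm {v // v ∉ X}, ∀ v, FitG G X v (ρ (f v))))
  have h3 : (univ.filter (fun K : SimpleGraph V => EmbX G K X)).card ≤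
      (univ.filter (fun K : SimpleGraph V => pat X K ∈ (univ.filter (fun ρ : {v // v ∉ X} → X → Bool =>
        ∃ f : Perm {v // v ∉ X}, ∀ v, FitG G X v (ρ (f v)))))).card := by
    apply card_le_card
    intro K hK
    simp only [mem_filter, mem_univ, true_and] at hK ⊢
    exact hK.pat
  exact arith0 Fintype.card_pos Fintype.card_pos hG ((emb_le G X).trans (Nat.mul_le_mul_left _ h3)) h2 h1 hm

end Pool.Agent.H.MP_d03aa7_co
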