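import Mathlib
import Pool.Agent.H.MP_d03aa7_co.Pattern

/-! Edge number and maximum degree of a likely subgraph. -/

namespace Pool.Agent.H.MP_d03aa7_co

open Finset Equiv Classical

variable {V : Type*} [Fintype V] [DecidableEq V]

lemma card_super (G : SimpleGraph V) :
    (univ.filter (fun K : SimpleGraph V => G ≤ K)).card * 2 ^ G.edgeFinset.card ≤
      Fintype.card (SimpleGraph V) := by
  rw [← card_powerset, ← card_product, ← card_univ]
  apply card_le_card_of_injOn (fun q => q.1.deleteEdges (q.2 : Set (Sym2 V)))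
  · intro q _; simp
  · rintro ⟨K, S⟩ h ⟨K', S'⟩ h' heq
    simp only [coe_product, coe_filter, mem_univ, true_and, Set.mem_prod, Set.mem_ofPred_eq,
      mem_coe, mem_powerset] at h h' heq
    obtain ⟨h1, h2⟩ := h
    obtain ⟨h1', h2'⟩ := h'
    have hS : ∀ x ∈ S, x ∈ G.edgeSet := fun x hx => by
      have := h2 hx; simpa using this
    have hS' : ∀ x ∈ S', x ∈ G.edgeSet := fun x hx => by
      have := h2' hx; simpa using this
    have hadj : ∀ a b, (K.Adj a b ∧ s(a, b) ∉ S) ↔ (K'.Adj a b ∧ s(a, b) ∉ S') := by
      intro a b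
      have h3 : (K.deleteEdges (S : Set (Sym2 V))).Adj a b ↔
          (K'.deleteEdges (S' : Set (Sym2 V))).Adj a b := by rw [heq]
      rw [SimpleGraph.deleteEdges_adj, SimpleGraph.deleteEdges_adj] at h3
      simpa using h3
    have hK : K = K' := by
      ext a b
      by_cases hG : G.Adj a b
      · exact ⟨fun _ => h1' hG, fun _ => h1 hG⟩
      · have e1 : s(a, b) ∉ S := fun h => hG (by simpa using hS _ h)
        have e2 : s(a, b) ∉ S' := fun h => hG (by simpa using hS' _ h)
        have := hadj a b
        tauto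
    have hSS : S = S' := by
      ext x
      induction x using Sym2.ind with
      | _ a b =>
        have := hadj a b
        constructor
        · intro hx
          have hG : G.Adj a b := by simpa using hS _ hx
          have k1 := h1 hG
          have k2 := h1' hG
          tauto
        · intro hx
          have hG : G.Adj a b := by simpa using hS' _ hx
          have k1 := h1 hG
          have k2 := h1' hG
          tauto
    rw [hK, hSS]

lemma edges_bound (G : SimpleGraph V) {α : ℝ}
    (hG : α * (Fintype.card (SimpleGraph V) : ℕ) ≤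
      ((univ.filter (fun K : SimpleGraph V => Emb G K)).card : ℕ)) :
    α * 2 ^ G.edgeFinset.card ≤ ((Fintype.card V : ℕ) : ℝ) ^ (Fintype.card V) := by
  have h1 := emb_le G univ
  have h2 : (univ.filter (fun K : SimpleGraph V => EmbX G K univ)).card ≤
      (univ.filter (fun K : SimpleGraph V => G ≤ K)).card := by
    apply card_le_card
    intro K hK
    simp only [mem_filter, mem_univ, true_and] at hK ⊢
    obtain ⟨f, hf, hf2⟩ := hK
    intro a b hab
    have := hf2 a b hab
    rwa [hf a (mem_univ _), hf b (mem_univ _)] at this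
  have h3 := card_super G
  rw [card_univ] at h1
  have hT : 0 < Fintype.card (SimpleGraph V) := Fintype.card_pos
  generalize (univ.filter (fun K : SimpleGraph V => Emb G K)).card = E at *
  generalize (univ.filter (fun K : SimpleGraph V => EmbX G K univ)).card = E2 at *
  generalize (univ.filter (fun K : SimpleGraph V => G ≤ K)).card = E3 at *
  generalize Fintype.card (SimpleGraph V) = T at *
  generalize G.edgeFinset.card = g at *
  generalize Fintype.card V = n at *
  have h4 : E * 2 ^ g ≤ n ^ n * T := by
    calc E * 2 ^ g ≤ (n ^ n * E3) * 2 ^ g := Nat.mul_le_mul_right _ (h1.trans (Nat.mul_le_mul_left _ h2))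
      _ = n ^ n * (E3 * 2 ^ g) := by ring
      _ ≤ n ^ n * T := Nat.mul_le_mul_left _ h3
  have h4' : (E : ℝ) * 2 ^ g ≤ (n : ℝ) ^ n * T := by exact_mod_cast h4
  have hT' : (0 : ℝ) < T := by exact_mod_cast hT
  have h5 : (α * 2 ^ g) * T ≤ (n : ℝ) ^ n * T := by
    calc (α * 2 ^ g) * T = (α * T) * 2 ^ g := by ring
      _ ≤ E * 2 ^ g := by gcongr
      _ ≤ _ := h4'
  exact le_of_mul_le_mul_right h5 hT'

lemma sum_pow_trues (W : Type*) [Fintype W] [DecidableEq W] :
    ∑ ρ : W → Bool, 8 ^ (univ.filter (fun w => ρ w = true)).card = 9 ^ Fintype.card W := by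
  have h1 : ∀ ρ : W → Bool, 8 ^ (univ.filter (fun w => ρ w = true)).card =
      ∏ w : W, (if ρ w = true then 8 else 1) := by
    intro ρ
    rw [prod_ite]
    simp
  rw [Finset.sum_congr rfl (fun ρ _ => h1 ρ)]
  have h2 := (Finset.prod_univ_sum (fun _ : W => (univ : Finset Bool))
    (fun _ b => if b = true then 8 else 1)).symm
  rw [Fintype.piFinset_univ] at h2
  rw [h2]
  simp [Finset.prod_const]

lemma degree_bound (G : SimpleGraph V) {α : ℝ} (v₀ : V)
    (hG : α * (Fintype.card (SimpleGraph V) : ℕ) ≤
      ((univ.filter (fun K : SimpleGraph V => Emb G K)).card : ℕ)) :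
    α * 2 ^ (Fintype.card V - 1) * 8 ^ (G.degree v₀) ≤
      ((Fintype.card V : ℕ) : ℝ) * 9 ^ (Fintype.card V - 1) := by
  set X : Finset V := {v₀} with hX
  have hW : Fintype.card {v // v ∉ X} = Fintype.card V - 1 := by
    rw [Fintype.card_subtype_compl (fun v => v ∈ X)]
    simp [X]
  let x₀ : X := ⟨v₀, mem_singleton_self v₀⟩
  let PP : Finset ({v // v ∉ X} → X → Bool) :=
    univ.filter (fun ρ => G.degree v₀ ≤ (univ.filter (fun w => ρ w x₀ = true)).card)
  have h1 := emb_le G X
  have h2 := pat_uniform X PP
  have h3 : (univ.filter (fun K : SimpleGraph V => EmbX G K X)).card ≤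
      (univ.filter (fun K : SimpleGraph V => pat X K ∈ PP)).card := by
    apply card_le_card
    intro K hK
    simp only [mem_filter, mem_univ, true_and, PP] at hK ⊢
    obtain ⟨f, hf⟩ := hK.pat
    have hA : G.degree v₀ = (univ.filter (fun v : {v // v ∉ X} => G.Adj v v₀)).card := by
      rw [← SimpleGraph.card_neighborFinset_eq_degree,
        ← card_map (Function.Embedding.subtype (fun v => v ∉ X))]
      congr 1
      ext v
      simp only [SimpleGraph.mem_neighborFinset, mem_map, mem_filter, mem_univ, true_and,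
        Function.Embedding.subtype_apply, Subtype.exists, exists_and_right, exists_eq_right]
      constructor
      · intro h
        refine ⟨fun h2 => ?_, h.symm⟩
        rw [hX, mem_singleton] at h2
        subst h2
        exact G.loopless.irrefl _ h
      · rintro ⟨_, h⟩
        exact h.symm
    rw [hA]
    apply card_le_card_of_injOn (fun v => f v)
    · intro v hv
      simp only [coe_filter, mem_univ, true_and, Set.mem_ofPred_eq] at hv ⊢
      exact hf v x₀ hv
    · intro a _ b _ h
      exact f.injective h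
  -- the number of patterns
  let ev : ({v // v ∉ X} → X → Bool) ≃ ({v // v ∉ X} → Bool) :=
    Equiv.arrowCongr (Equiv.refl _) (Equiv.funUnique X Bool)
  have hev : ∀ ρ w, ev ρ w = ρ w x₀ := by
    intro ρ w
    simp only [ev, Equiv.arrowCongr_apply, Equiv.coe_refl, Equiv.refl_symm, Function.comp_apply,
      Equiv.funUnique_apply, id_eq]
    congr 1
  have hQ : Fintype.card ({v // v ∉ X} → X → Bool) = 2 ^ (Fintype.card V - 1) := by
    rw [Fintype.card_congr ev, Fintype.card_fun, Fintype.card_bool, hW]
  have hPP : PP.card * 8 ^ (G.degree v₀) ≤ 9 ^ (Fintype.card V - 1) := by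
    rw [← hW, ← sum_pow_trues]
    calc PP.card * 8 ^ (G.degree v₀) = ∑ ρ ∈ PP, 8 ^ (G.degree v₀) := by simp
      _ ≤ ∑ ρ ∈ PP, 8 ^ (univ.filter (fun w => ρ w x₀ = true)).card := by
          apply sum_le_sum
          intro ρ hρ
          exact Nat.pow_le_pow_right (by norm_num) (mem_filter.mp hρ).2
      _ ≤ ∑ ρ : {v // v ∉ X} → X → Bool, 8 ^ (univ.filter (fun w => ρ w x₀ = true)).card :=
          sum_le_sum_of_subset (subset_univ _)
      _ = _ := by
          apply Fintype.sum_equiv ev
          intro ρ
          simp only [hev]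
  have hXc : X.card = 1 := by simp [X]
  rw [hXc, pow_one] at h1
  have hT : 0 < Fintype.card (SimpleGraph V) := Fintype.card_pos
  rw [hQ] at h2
  generalize (univ.filter (fun K : SimpleGraph V => Emb G K)).card = E at *
  generalize (univ.filter (fun K : SimpleGraph V => EmbX G K X)).card = E2 at *
  generalize (univ.filter (fun K : SimpleGraph V => pat X K ∈ PP)).card = E3 at *
  generalize Fintype.card (SimpleGraph V) = T at *
  generalize G.degree v₀ = g at *
  generalize PP.card = P at *
  generalize Fintype.card V = n at *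
  generalize n - 1 = n1 at *
  have h4 : E * 2 ^ n1 * 8 ^ g ≤ (n * 9 ^ n1) * T := by
    calc E * 2 ^ n1 * 8 ^ g ≤ (n * E3) * 2 ^ n1 * 8 ^ g := by
          apply Nat.mul_le_mul_right
          apply Nat.mul_le_mul_right
          exact h1.trans (Nat.mul_le_mul_left _ h3)
      _ = n * (E3 * 2 ^ n1) * 8 ^ g := by ring
      _ = n * (P * 8 ^ g) * T := by rw [h2]; ring
      _ ≤ n * 9 ^ n1 * T := by
          apply Nat.mul_le_mul_right
          exact Nat.mul_le_mul_left _ hPP
  have h4' : (E : ℝ) * 2 ^ n1 * 8 ^ g ≤ ((n : ℝ) * 9 ^ n1) * T := by exact_mod_cast h4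
  have hT' : (0 : ℝ) < T := by exact_mod_cast hT
  have h5 : (α * 2 ^ n1 * 8 ^ g) * T ≤ ((n : ℝ) * 9 ^ n1) * T := by
    calc (α * 2 ^ n1 * 8 ^ g) * T = (α * T) * 2 ^ n1 * 8 ^ g := by ring
      _ ≤ E * 2 ^ n1 * 8 ^ g := by gcongr
      _ ≤ _ := h4'
  exact le_of_mul_le_mul_right h5 hT'

end Pool.Agent.H.MP_d03aa7_co
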