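import Mathlib
import Pool.Agent.H.MP_d03aa7_co.Bounds
import Pool.Agent.H.MP_d03aa7_co.Assemble

/-! The key lemma and the joint choice of the tuples. -/

namespace Pool.Agent.H.MP_d03aa7_co

open Finset Equiv Classical

variable {V : Type*} [Fintype V] [DecidableEq V]

theorem key1 (G : SimpleGraph V) (X : Finset V) {ι : Type*} [Fintype ι] [DecidableEq ι] {α : ℝ}
    (hG : α * (Fintype.card (SimpleGraph V) : ℕ) ≤
      ((univ.filter (fun K : SimpleGraph V => Emb G K)).card : ℕ))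
    {M1 M2 S δ C2 C3 C4 : ℝ}
    {ω : ι → ℝ} (hω : ∀ i, 0 ≤ ω i) (hδ0 : 0 ≤ δ) (hδ : ∀ z ∉ X, (G.degree z : ℝ) ≤ δ)
    (hM1 : 0 < M1) (hM1' : M1 ≤ ((Fintype.card V - X.card : ℕ) : ℝ))
    (hM2 : 0 < M2) (hM2' : M2 ≤ (((Fintype.card V - X.card) * (Fintype.card V - X.card) -
      (Fintype.card V - X.card) : ℕ) : ℝ))
    (hS : ∑ v, (G.degree v : ℝ) ≤ S)
    (hC2 : 0 < C2) (hC3 : 0 < C3) (hC4 : 0 < C4)
    (k1 : (Fintype.card ι : ℝ)^2 * (S / M2) ≤ 1/64)
    (k2 : (∑ i, ω i) * (S / M1) ≤ C2 / 64)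
    (k3 : (∑ i, ω i)^2 * (δ * S / M2) ≤ C3 / 64)
    (k4 : (Fintype.card ι : ℝ) * (S / M1) ≤ C4 / 64)
    (m : ℕ) (hm : 2 * ((Fintype.card V : ℕ) : ℝ) ^ X.card < α * 10 ^ m)
    (hblk : 8 * m * Fintype.card ι ≤ Fintype.card V - X.card) :
    Fintype.card (ι → X → Bool) <
      2 * (univ.filter (fun R : ι → X → Bool => fitR (FitG G X) (goodT G X ω C2 C3 C4) R)).card := by
  have hW : Fintype.card {v // v ∉ X} = Fintype.card V - X.card := by
    rw [Fintype.card_subtype_compl (fun v => v ∈ X)]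
    simp
  have hne : Nonempty (Fin (8*m) × ι ↪ {v // v ∉ X}) := by
    apply Function.Embedding.nonempty_of_card_le
    rw [Fintype.card_prod, Fintype.card_fin, hW]
    exact hblk
  obtain ⟨e⟩ := hne
  refine key0 G X hG (goodT G X ω C2 C3 C4) m e (fun k => ?_) hm
  have hinj : Function.Injective (fun i : ι => e (k, i)) := by
    intro i j h
    have := e.injective h
    simpa using this
  refine good_most (X := X) G ⟨fun i : ι => e (k, i), hinj⟩ hω hδ0 hδ hM1 ?_ hM2 ?_ hS hC2 hC3 hC4 k1 k2 k3 k4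
  · rw [card_univ, hW]; exact hM1'
  · rw [offDiag_card, card_univ, hW]; exact hM2'

/-- joint choice -/
theorem join (G H : SimpleGraph V) (X Y : Finset V) (A : Set (Y → {v // v ∉ X}))
    (B : Set (X → {v // v ∉ Y}))
    (hA : Fintype.card (Y → X → Bool) < 2 * (univ.filter (fun R : Y → X → Bool => fitR (FitG G X) A R)).card)
    (hB : Fintype.card (X → Y → Bool) < 2 * (univ.filter (fun R : X → Y → Bool => fitR (FitG H Y) B R)).card) :
    ∃ v ∈ A, ∃ u ∈ B, ∀ (x : X) (y : Y), ¬ (G.Adj (v y) x ∧ H.Adj (u x) y) := by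
  let T : (X → Y → Bool) → (Y → X → Bool) := fun R y x => !(R x y)
  have hT : Function.Injective T := by
    intro R R' h
    funext x y
    have := congrFun (congrFun h y) x
    simpa [T] using this
  have hcard : Fintype.card (X → Y → Bool) = Fintype.card (Y → X → Bool) := by
    apply Fintype.card_congr
    exact Equiv.piComm _
  set SA := univ.filter (fun R : Y → X → Bool => fitR (FitG G X) A R) with hSA
  set SB := univ.filter (fun R : X → Y → Bool => fitR (FitG H Y) B R) with hSB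
  have h1 : (SB.image T).card = SB.card := card_image_of_injective _ hT
  have h2 : ¬ Disjoint SA (SB.image T) := by
    intro hd
    have h3 := card_union_of_disjoint hd
    have h4 := card_le_univ (SA ∪ SB.image T)
    omega
  rw [not_disjoint_iff] at h2
  obtain ⟨R, hR1, hR2⟩ := h2
  obtain ⟨R', hR', rfl⟩ := mem_image.mp hR2
  rw [hSA, mem_filter] at hR1
  rw [hSB, mem_filter] at hR'
  obtain ⟨v, hv, hv2⟩ := hR1.2
  obtain ⟨u, hu, hu2⟩ := hR'.2
  refine ⟨v, hv, u, hu, ?_⟩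
  rintro x y ⟨h5, h6⟩
  have h7 := hv2 y x h5
  have h8 := hu2 x y h6
  simp [T, h8] at h7

end Pool.Agent.H.MP_d03aa7_co
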