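import Mathlib
import Pool.Agent.H.MP_d03aa7_co.Key

/-! Choice of the parameters. -/

namespace Pool.Agent.H.MP_d03aa7_co

open Finset Equiv Classical

variable {V : Type*} [Fintype V] [DecidableEq V]

lemma num_pow {n l : ℝ} (hl : 10^5 ≤ l) (hn : l^20 ≤ n) {k : ℕ} (hk : k ≤ 20) :
    l^k * 10^(5*(20-k)) ≤ n := by
  have h0 : (0:ℝ) ≤ l := by linarith [show (0:ℝ) ≤ 10^5 by norm_num]
  have h1 : ((10:ℝ)^5)^(20-k) ≤ l^(20-k) := pow_le_pow_left₀ (by norm_num) hl _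
  rw [← pow_mul] at h1
  calc l^k * 10^(5*(20-k)) ≤ l^k * l^(20-k) := mul_le_mul_of_nonneg_left h1 (pow_nonneg h0 k)
    _ = l^20 := by rw [← pow_add]; congr 1; omega
    _ ≤ n := hn

lemma num_k1 {n l t : ℝ} (hl : 10^5 ≤ l) (hn : l^20 ≤ n) (ht0 : 0 ≤ t) (ht : t ≤ 3*l^6) :
    t^2 * (3*n*l / (n^2/8)) ≤ 1/64 := by
  have h1 := num_pow hl hn (k := 13) (by norm_num)
  have hl0 : (0:ℝ) < l := by linarith [show (0:ℝ) < 10^5 by norm_num]
  have hn0 : (0:ℝ) < n := lt_of_lt_of_le (by positivity) hn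
  have h2 : 3*n*l / (n^2/8) = 24*l/n := by field_simp; ring
  rw [h2]
  have h3 : t^2 ≤ (3*l^6)^2 := pow_le_pow_left₀ ht0 ht 2
  calc t^2 * (24*l/n) ≤ (3*l^6)^2 * (24*l/n) := mul_le_mul_of_nonneg_right h3 (by positivity)
    _ = 216 * l^13 / n := by ring
    _ ≤ 1/64 := by
      rw [div_le_iff₀ hn0]
      have : (10:ℝ)^(5*(20-13)) = 10^35 := by norm_num
      rw [this] at h1
      have h4 : l^13 * 13824 ≤ l^13 * 10^35 := mul_le_mul_of_nonneg_left (by norm_num) (by positivity)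
      linarith

lemma num_k2 {n l w : ℝ} (hl : 10^5 ≤ l) (hn : l^20 ≤ n) (hw : w ≤ 3*n*l) :
    w * (3*n*l / (n/2)) ≤ (1152*n*l^2)/64 := by
  have hl0 : (0:ℝ) < l := by linarith [show (0:ℝ) < 10^5 by norm_num]
  have hn0 : (0:ℝ) < n := lt_of_lt_of_le (by positivity) hn
  have h2 : 3*n*l / (n/2) = 6*l := by field_simp; ring
  rw [h2]
  calc w * (6*l) ≤ (3*n*l) * (6*l) := mul_le_mul_of_nonneg_right hw (by positivity)
    _ = (1152*n*l^2)/64 := by ring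

lemma num_k3 {n l w δ : ℝ} (hl : 10^5 ≤ l) (hn : l^20 ≤ n) (hw0 : 0 ≤ w) (hw : w ≤ 3*n*l)
    (hδ : δ ≤ n/l^5) :
    w^2 * (δ * (3*n*l) / (n^2/8)) ≤ (13824*n^2/l^2)/64 := by
  have hl0 : (0:ℝ) < l := by linarith [show (0:ℝ) < 10^5 by norm_num]
  have hn0 : (0:ℝ) < n := lt_of_lt_of_le (by positivity) hn
  have h2 : w^2 ≤ (3*n*l)^2 := pow_le_pow_left₀ hw0 hw 2
  have h3 : δ * (3*n*l) / (n^2/8) ≤ 24/l^4 := by
    have : δ * (3*n*l) / (n^2/8) = δ * (24*l/n) := by field_simp; ring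
    rw [this]
    calc δ * (24*l/n) ≤ (n/l^5) * (24*l/n) := mul_le_mul_of_nonneg_right hδ (by positivity)
      _ = 24/l^4 := by field_simp
  calc w^2 * (δ * (3*n*l) / (n^2/8)) ≤ w^2 * (24/l^4) := mul_le_mul_of_nonneg_left h3 (by positivity)
    _ ≤ (3*n*l)^2 * (24/l^4) := mul_le_mul_of_nonneg_right h2 (by positivity)
    _ = (13824*n^2/l^2)/64 := by field_simp; ring

lemma num_k4 {n l t : ℝ} (hl : 10^5 ≤ l) (hn : l^20 ≤ n) (ht : t ≤ 3*l^6) :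
    t * (3*n*l / (n/2)) ≤ (1152*l^7)/64 := by
  have hl0 : (0:ℝ) < l := by linarith [show (0:ℝ) < 10^5 by norm_num]
  have hn0 : (0:ℝ) < n := lt_of_lt_of_le (by positivity) hn
  have h2 : 3*n*l / (n/2) = 6*l := by field_simp; ring
  rw [h2]
  calc t * (6*l) ≤ (3*l^6) * (6*l) := mul_le_mul_of_nonneg_right ht (by positivity)
    _ = (1152*l^7)/64 := by ring

lemma num_n1 {n l : ℝ} (hl : 10^5 ≤ l) (hn : l^20 ≤ n) :
    2 * (2 * (1152*n*l^2) / (n/2)) + (3*n*l) ^ 2 / (n^2/8) ≤ (40000*l^2) / 4 := by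
  have hl0 : (0:ℝ) < l := by linarith [show (0:ℝ) < 10^5 by norm_num]
  have hn0 : (0:ℝ) < n := lt_of_lt_of_le (by positivity) hn
  have h1 : 2 * (2 * (1152*n*l^2) / (n/2)) = 9216 * l^2 := by field_simp; ring
  have h2 : (3*n*l) ^ 2 / (n^2/8) = 72 * l^2 := by field_simp; ring
  rw [h1, h2]
  nlinarith [sq_nonneg l]

lemma num_n2 {n l δ : ℝ} (hl : 10^5 ≤ l) (hn : l^20 ≤ n) (hδ0 : 0 ≤ δ) (hδ : δ ≤ n/l^5) :
    13824*n^2/l^2 + 2 * ((3*n*l) / (n/2) * δ * (1152*n*l^2)) + (3*n*l) ^ 2 / (n^2/8) * (δ * (3*n*l)) ≤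
      (400*n/l) ^ 2 / 4 := by
  have hl0 : (0:ℝ) < l := by linarith [show (0:ℝ) < 10^5 by norm_num]
  have hn0 : (0:ℝ) < n := lt_of_lt_of_le (by positivity) hn
  have h1 : (3*n*l) / (n/2) = 6*l := by field_simp; ring
  have h2 : (3*n*l) ^ 2 / (n^2/8) = 72 * l^2 := by field_simp; ring
  rw [h1, h2]
  have h3 : 2 * (6*l * δ * (1152*n*l^2)) ≤ 2 * (6*l * (n/l^5) * (1152*n*l^2)) := by gcongr
  have h4 : 72 * l^2 * (δ * (3*n*l)) ≤ 72 * l^2 * ((n/l^5) * (3*n*l)) := by gcongr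
  have h5 : 2 * (6*l * (n/l^5) * (1152*n*l^2)) = 13824 * (n/l)^2 := by field_simp; ring
  have h6 : 72 * l^2 * ((n/l^5) * (3*n*l)) = 216 * (n/l)^2 := by field_simp; ring
  have h7 : 13824*n^2/l^2 = 13824 * (n/l)^2 := by field_simp
  have h8 : (400*n/l) ^ 2 / 4 = 40000 * (n/l)^2 := by field_simp; ring
  rw [h7, h8]
  rw [h5] at h3
  rw [h6] at h4
  nlinarith [sq_nonneg (n/l)]

lemma num_n3 {n l : ℝ} (hl : 10^5 ≤ l) (hn : l^20 ≤ n) :
    (1152*l^7) ^ 2 / (n/2) < 1 / 4 := by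
  have h1 := num_pow hl hn (k := 14) (by norm_num)
  have hl0 : (0:ℝ) < l := by linarith [show (0:ℝ) < 10^5 by norm_num]
  have hn0 : (0:ℝ) < n := lt_of_lt_of_le (by positivity) hn
  rw [div_lt_iff₀ (by positivity)]
  have : (10:ℝ)^(5*(20-14)) = 10^30 := by norm_num
  rw [this] at h1
  have h4 : l^14 * 10616833 ≤ l^14 * 10^30 := mul_le_mul_of_nonneg_left (by norm_num) (by positivity)
  have h5 : 0 < l^14 := by positivity
  have h6 : (1152*l^7)^2 = 1327104 * l^14 := by ring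
  rw [h6]
  linarith

lemma num_n4 {n l δ s t : ℝ} (hl : 10^5 ≤ l) (hn : l^20 ≤ n) (hδ0 : 0 ≤ δ) (hδ : δ ≤ n/l^5)
    (hs : s ≤ 3*l^6) (ht : t ≤ 3*l^6) :
    2 * (1152*l^7) + (7*n/8 + 400*n/l) + (δ + 400*n/l) + 4 * δ * (40000*l^2) + 2 * δ + (s + t) + 1 <
      n := by
  have hl0 : (0:ℝ) < l := by linarith [show (0:ℝ) < 10^5 by norm_num]
  have hn0 : (0:ℝ) < n := lt_of_lt_of_le (by positivity) hn
  have h1 := num_pow hl hn (k := 7) (by norm_num)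
  have e1 : (10:ℝ)^(5*(20-7)) = 10^65 := by norm_num
  rw [e1] at h1
  have h2 := num_pow hl hn (k := 6) (by norm_num)
  have e2 : (10:ℝ)^(5*(20-6)) = 10^70 := by norm_num
  rw [e2] at h2
  have h3 := num_pow hl hn (k := 0) (by norm_num)
  have e3 : (10:ℝ)^(5*(20-0)) = 10^100 := by norm_num
  rw [e3] at h3
  have g1 : l^7 * 10^10 ≤ n := le_trans (mul_le_mul_of_nonneg_left (by norm_num) (by positivity)) h1
  have g2 : l^6 * 10^10 ≤ n := le_trans (mul_le_mul_of_nonneg_left (by norm_num) (by positivity)) h2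
  have g3 : 10^10 ≤ n := by
    refine le_trans ?_ h3
    norm_num
  -- n/l ≤ n / 10^5
  have g4 : n / l ≤ n / 10^5 := by gcongr
  have hl3 : (10:ℝ)^5 ≤ l^3 := by
    calc (10:ℝ)^5 ≤ (10^5)^3 := by norm_num
      _ ≤ l^3 := by gcongr
  have hl3' : (10:ℝ)^15 ≤ l^3 := by
    calc (10:ℝ)^15 = (10^5)^3 := by norm_num
      _ ≤ l^3 := by gcongr
  have hl5 : (10:ℝ)^5 ≤ l^5 := by
    calc (10:ℝ)^5 ≤ (10^5)^5 := by norm_num
      _ ≤ l^5 := by gcongr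
  have g5 : δ ≤ n / 10^5 := hδ.trans (by gcongr)
  have g6 : δ * l^2 ≤ n / 10^15 := by
    calc δ * l^2 ≤ (n/l^5) * l^2 := by gcongr
      _ = n / l^3 := by field_simp
      _ ≤ n / 10^15 := by gcongr
  have g7 : 400*n/l = 400 * (n/l) := by ring
  rw [g7]
  have g8 : 4 * δ * (40000*l^2) = 160000 * (δ * l^2) := by ring
  rw [g8]
  linarith

end Pool.Agent.H.MP_d03aa7_co
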