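import Mathlib
import Pool.Agent.H.MP_d03aa7_co.Numeric

/-! Choice of the parameters. -/

namespace Pool.Agent.H.MP_d03aa7_co

open Finset Equiv Classical

variable {V : Type*} [Fintype V] [DecidableEq V]

lemma sum_deg_le (G : SimpleGraph V) {α : ℝ} (hα : 0 < α) {L : ℕ}
    (hn : Fintype.card V ≤ 2^L) (hL : 1 ≤ L) (hn2 : 2 ≤ Fintype.card V)
    (hαn : 1 ≤ α * (Fintype.card V : ℕ))
    (hG : α * (Fintype.card (SimpleGraph V) : ℕ) ≤
      ((univ.filter (fun K : SimpleGraph V => Emb G K)).card : ℕ)) :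
    ∑ v, (G.degree v : ℝ) ≤ 3 * (Fintype.card V : ℕ) * L := by
  set n := Fintype.card V with hnV
  have h1 := edges_bound G hG
  rw [← hnV] at h1
  have h2 : (2:ℝ)^(G.edgeFinset.card) ≤ 2^(L*(n+1)) := by
    have hnr : (n:ℝ) ≤ 2^L := by exact_mod_cast hn
    have hn0 : (0:ℝ) ≤ n := Nat.cast_nonneg _
    calc (2:ℝ)^(G.edgeFinset.card) = 1 * 2^(G.edgeFinset.card) := by ring
      _ ≤ (α * n) * 2^(G.edgeFinset.card) := mul_le_mul_of_nonneg_right hαn (by positivity)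
      _ = n * (α * 2^(G.edgeFinset.card)) := by ring
      _ ≤ n * (n:ℝ)^n := mul_le_mul_of_nonneg_left h1 hn0
      _ = (n:ℝ)^(n+1) := by ring
      _ ≤ (2^L)^(n+1) := pow_le_pow_left₀ hn0 hnr _
      _ = 2^(L*(n+1)) := by rw [← pow_mul]
  have h3 : G.edgeFinset.card ≤ L*(n+1) := by
    by_contra hcon
    push Not at hcon
    have : (2:ℝ)^(L*(n+1)) < 2^(G.edgeFinset.card) := pow_lt_pow_right₀ (by norm_num) hcon
    linarith
  have h4 := G.sum_degrees_eq_twice_card_edges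
  have h5 : ∑ v, G.degree v ≤ 3 * n * L := by
    rw [h4]
    calc 2 * G.edgeFinset.card ≤ 2 * (L*(n+1)) := by omega
      _ = (2 * n + 2) * L := by ring
      _ ≤ (3 * n) * L := by
        apply Nat.mul_le_mul_right
        omega
  have h6 : (∑ v, (G.degree v : ℝ)) = ((∑ v, G.degree v : ℕ) : ℝ) := by push_cast; rfl
  rw [h6]
  exact_mod_cast h5

lemma deg_le (G : SimpleGraph V) {α : ℝ} (hα : 0 < α) (hn2 : 2 ≤ Fintype.card V)
    (hαn : 1 ≤ α * (Fintype.card V : ℕ))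
    (h912 : 2 * (Fintype.card V : ℕ)^2 * (9:ℝ)^(Fintype.card V) < 9 * 12^(Fintype.card V))
    (hG : α * (Fintype.card (SimpleGraph V) : ℕ) ≤
      ((univ.filter (fun K : SimpleGraph V => Emb G K)).card : ℕ)) (z : V) :
    (G.degree z : ℝ) ≤ 7 * (Fintype.card V : ℕ) / 8 := by
  set n := Fintype.card V with hnV
  have h1 := degree_bound G z hG
  rw [← hnV] at h1
  by_contra hcon
  push Not at hcon
  set D := G.degree z with hD
  have h2 : 7 * n < 8 * D := by
    have : (7 * n : ℝ) < 8 * D := by linarith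
    exact_mod_cast this
  have h3 : (6:ℝ)^n ≤ 8^D := by
    have h4 : ((6:ℝ)^n)^8 ≤ (8^D)^8 := by
      calc ((6:ℝ)^n)^8 = (6^8)^n := by rw [← pow_mul, ← pow_mul, Nat.mul_comm]
        _ ≤ (8^7)^n := pow_le_pow_left₀ (by norm_num) (by norm_num) _
        _ = 8^(7*n) := by rw [← pow_mul]
        _ ≤ 8^(8*D) := pow_le_pow_right₀ (by norm_num) h2.le
        _ = (8^D)^8 := by rw [← pow_mul, Nat.mul_comm]
    exact le_of_pow_le_pow_left₀ (by norm_num) (by positivity) h4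
  obtain ⟨k, hk⟩ : ∃ k, n = k + 1 := ⟨n - 1, by omega⟩
  have hk' : n - 1 = k := by omega
  rw [hk'] at h1
  have hn0 : (0:ℝ) < n := by exact_mod_cast (by omega : 0 < n)
  have h5 : (2:ℝ)^k * 6^n ≤ n^2 * 9^k := by
    calc (2:ℝ)^k * 6^n ≤ (α * n) * (2^k * 6^n) := by
          nlinarith [show (0:ℝ) < 2^k * 6^n by positivity]
      _ ≤ (α * n) * (2^k * 8^D) := by
          apply mul_le_mul_of_nonneg_left _ (by positivity)
          exact mul_le_mul_of_nonneg_left h3 (by positivity)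
      _ = n * (α * 2^k * 8^D) := by ring
      _ ≤ n * (n * 9^k) := mul_le_mul_of_nonneg_left h1 hn0.le
      _ = n^2 * 9^k := by ring
  have h6 : (2:ℝ)^k * 6^n * 18 = 9 * 12^n := by
    have : (12:ℝ)^n = 2^n * 6^n := by rw [← mul_pow]; norm_num
    rw [this, hk]
    ring
  have h7 : (9:ℝ)^n = 9^k * 9 := by rw [hk, pow_succ]
  rw [h7] at h912
  nlinarith

/-- high-degree vertices are few -/
lemma card_high (G : SimpleGraph V) {S : ℝ} (hS : ∑ v, (G.degree v : ℝ) ≤ S) (δ : ℕ) :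
    ((univ.filter (fun v => δ < G.degree v)).card : ℝ) * (δ + 1) ≤ S := by
  refine le_trans ?_ hS
  calc ((univ.filter (fun v => δ < G.degree v)).card : ℝ) * (δ + 1)
      = ∑ v ∈ univ.filter (fun v => δ < G.degree v), ((δ : ℝ) + 1) := by
        rw [sum_const, nsmul_eq_mul]
    _ ≤ ∑ v ∈ univ.filter (fun v => δ < G.degree v), (G.degree v : ℝ) := by
        apply sum_le_sum
        intro v hv
        rw [mem_filter] at hv
        exact_mod_cast hv.2
    _ ≤ ∑ v, (G.degree v : ℝ) :=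
        sum_le_sum_of_subset_of_nonneg (filter_subset _ _) (fun _ _ _ => Nat.cast_nonneg _)

lemma card_high' (G : SimpleGraph V) {L : ℕ} (hL : 1 ≤ L) (hn2 : 2 ≤ Fintype.card V)
    (hS : ∑ v, (G.degree v : ℝ) ≤ 3 * (Fintype.card V : ℕ) * L) :
    ((univ.filter (fun v => Fintype.card V / L^5 < G.degree v)).card : ℝ) ≤ 3 * (L:ℝ)^6 := by
  set n := Fintype.card V with hnV
  have h1 := card_high G hS (n / L^5)
  have hL0 : (0:ℝ) < L := by exact_mod_cast (by omega : 0 < L)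
  have hn0 : (0:ℝ) < n := by exact_mod_cast (by omega : 0 < n)
  have h2 : (n:ℝ) < L^5 * (((n / L^5 : ℕ) : ℝ) + 1) := by
    have h3 : n < L^5 * (n / L^5 + 1) := Nat.lt_mul_div_succ n (by positivity)
    exact_mod_cast h3
  set c : ℝ := ((univ.filter (fun v => n / L^5 < G.degree v)).card : ℝ) with hc
  have hc0 : 0 ≤ c := Nat.cast_nonneg _
  have h4 : c * n ≤ (3 * (L:ℝ)^6) * n := by
    calc c * n ≤ c * (L^5 * (((n / L^5 : ℕ) : ℝ) + 1)) := mul_le_mul_of_nonneg_left h2.le hc0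
      _ = L^5 * (c * (((n / L^5 : ℕ) : ℝ) + 1)) := by ring
      _ ≤ L^5 * (3 * n * L) := mul_le_mul_of_nonneg_left h1 (by positivity)
      _ = (3 * (L:ℝ)^6) * n := by ring
  exact le_of_mul_le_mul_right h4 hn0

lemma pow_ineq {L : ℕ} (hL : 10^5 ≤ L) : 51 * L^13 ≤ L^20 := by
  have h1 : 51 ≤ L^7 := by
    calc 51 ≤ (10^5)^7 := by norm_num
      _ ≤ L^7 := Nat.pow_le_pow_left hL 7
  calc 51 * L^13 ≤ L^7 * L^13 := Nat.mul_le_mul_right _ h1
    _ = L^20 := by ring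

lemma M_bounds {n c : ℕ} (hn : 4 ≤ n) (hc : 2 * c ≤ n) :
    (n:ℝ)/2 ≤ ((n - c : ℕ) : ℝ) ∧ (n:ℝ)^2/8 ≤ (((n - c) * (n - c) - (n - c) : ℕ) : ℝ) := by
  obtain ⟨w, hw⟩ : ∃ w, n - c = w + 1 := ⟨n - c - 1, by omega⟩
  rw [hw]
  have h1 : (w + 1) * (w + 1) - (w + 1) = w * (w+1) := by
    have : (w + 1) * (w + 1) = w * (w+1) + (w + 1) := by ring
    omega
  rw [h1]
  have h2 : n ≤ 2 * (w + 1) := by omega
  have h3 : (n:ℝ) ≤ 2 * (w + 1) := by exact_mod_cast h2
  have h4 : (4:ℝ) ≤ n := by exact_mod_cast hn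
  push_cast
  constructor
  · linarith
  · nlinarith

theorem side (G H : SimpleGraph V) {α : ℝ} (hα : 0 < α) {L : ℕ}
    (hn : Fintype.card V ≤ 2^L) (hL : 10^5 ≤ L) (hLn : L^20 ≤ Fintype.card V)
    (hαn : 1 ≤ α * (Fintype.card V : ℕ))
    (hG : α * (Fintype.card (SimpleGraph V) : ℕ) ≤
      ((univ.filter (fun K : SimpleGraph V => Emb G K)).card : ℕ))
    (hSG : ∑ v, (G.degree v : ℝ) ≤ 3 * (Fintype.card V : ℕ) * L)
    (hSH : ∑ v, (H.degree v : ℝ) ≤ 3 * (Fintype.card V : ℕ) * L)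
    {X Y : Finset V} (hX : X = univ.filter (fun v => Fintype.card V / L^5 < G.degree v))
    (hY : Y = univ.filter (fun v => Fintype.card V / L^5 < H.degree v)) :
    Fintype.card (Y → X → Bool) <
      2 * (univ.filter (fun R : Y → X → Bool => fitR (FitG G X)
        (goodT G X (fun y : Y => (H.degree (y : V) : ℝ)) (1152 * (Fintype.card V : ℕ) * (L:ℝ)^2)
          (13824 * (Fintype.card V : ℕ)^2 / (L:ℝ)^2) (1152 * (L:ℝ)^7)) R)).card := by
  set n := Fintype.card V with hnV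
  have hlr : (10:ℝ)^5 ≤ (L:ℝ) := by exact_mod_cast hL
  have hnr : (L:ℝ)^20 ≤ (n:ℝ) := by exact_mod_cast hLn
  have hl0 : (0:ℝ) < L := by linarith [show (0:ℝ) < 10^5 by norm_num]
  have hn0 : (0:ℝ) < n := lt_of_lt_of_le (by positivity) hnr
  have hpi := pow_ineq hL
  have hL1 : 1 ≤ L := by omega
  have hL13 : 1 ≤ L^13 := Nat.one_le_pow _ _ (by omega)
  have hL6 : L^6 ≤ L^13 := Nat.pow_le_pow_right (by omega) (by norm_num)
  have hn2 : 51 ≤ n := by
    calc 51 = 51 * 1 := by norm_num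
      _ ≤ 51 * L^13 := by omega
      _ ≤ n := hpi.trans hLn
  have hXc : (X.card : ℝ) ≤ 3 * (L:ℝ)^6 := by
    rw [hX]; exact card_high' G hL1 (by omega) hSG
  have hYc : (Y.card : ℝ) ≤ 3 * (L:ℝ)^6 := by
    rw [hY]; exact card_high' H hL1 (by omega) hSH
  have hXn : X.card ≤ 3 * L^6 := by exact_mod_cast hXc
  have hYn : Y.card ≤ 3 * L^6 := by exact_mod_cast hYc
  have h2X : 2 * X.card ≤ n := by
    have : 51 * L^13 ≤ n := hpi.trans hLn
    omega
  obtain ⟨m1, m2⟩ := M_bounds (by omega : 4 ≤ n) h2X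
  have hcY : Fintype.card Y = Y.card := Fintype.card_coe Y
  have hω : ∑ i : Y, (H.degree (i : V) : ℝ) ≤ 3 * n * L := by
    refine le_trans ?_ hSH
    rw [Finset.sum_coe_sort Y (fun v => (H.degree v : ℝ))]
    exact sum_le_sum_of_subset_of_nonneg (subset_univ _) (fun _ _ _ => Nat.cast_nonneg _)
  have hω0 : 0 ≤ ∑ i : Y, (H.degree (i : V) : ℝ) := sum_nonneg (fun _ _ => Nat.cast_nonneg _)
  have hδ : (((n / L^5 : ℕ) : ℕ) : ℝ) ≤ n / (L:ℝ)^5 := by
    have := @Nat.cast_div_le ℝ _ _ _ n (L^5)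
    push_cast at this
    exact this
  refine key1 G X hG (M1 := n/2) (M2 := (n:ℝ)^2/8) (S := 3 * n * L) (δ := ((n / L^5 : ℕ) : ℝ))
    (fun i => Nat.cast_nonneg _) (Nat.cast_nonneg _) ?_ (by positivity) m1 (by positivity) m2 hSG
    (by positivity) (by positivity) (by positivity) ?_ ?_ ?_ ?_ (2 * L^7) ?_ ?_
  · intro z hz
    rw [hX, mem_filter] at hz
    have : G.degree z ≤ n / L^5 := by
      by_contra hcon
      push Not at hcon
      exact hz ⟨mem_univ _, hcon⟩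
    exact_mod_cast this
  · rw [hcY]
    exact num_k1 hlr hnr (Nat.cast_nonneg _) hYc
  · exact num_k2 hlr hnr hω
  · exact num_k3 hlr hnr hω0 hω hδ
  · rw [hcY]
    exact num_k4 hlr hnr hYc
  · have hk : 1 ≤ L^7 := Nat.one_le_pow _ _ (by omega)
    set k := L^7 with hkdef
    have hnr2 : (n:ℝ) ≤ 2^L := by exact_mod_cast hn
    have e1 : (n:ℝ)^X.card ≤ 2^(3*k) := by
      calc (n:ℝ)^X.card ≤ (2^L)^X.card := pow_le_pow_left₀ hn0.le hnr2 _
        _ = 2^(L * X.card) := by rw [← pow_mul]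
        _ ≤ 2^(3*k) := by
          apply pow_le_pow_right₀ (by norm_num)
          calc L * X.card ≤ L * (3 * L^6) := Nat.mul_le_mul_left _ hXn
            _ = 3 * k := by rw [hkdef]; ring
    have e2 : (n:ℝ) ≤ 2^k := by
      refine hnr2.trans (pow_le_pow_right₀ (by norm_num) ?_)
      rw [hkdef]
      exact Nat.le_self_pow (by norm_num) L
    have e3 : 2 * ((n:ℝ) * (n:ℝ)^X.card) < 100^k := by
      calc 2 * ((n:ℝ) * (n:ℝ)^X.card) ≤ 2 * (2^k * 2^(3*k)) := by gcongr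
        _ = 2 * 16^k := by
          rw [← pow_add]
          have : (2:ℝ)^(k+3*k) = 16^k := by
            rw [show k + 3*k = 4*k by ring, pow_mul]; norm_num
          rw [this]
        _ ≤ 2^k * 16^k := by
          apply mul_le_mul_of_nonneg_right _ (by positivity)
          calc (2:ℝ) = 2^1 := by norm_num
            _ ≤ 2^k := pow_le_pow_right₀ (by norm_num) hk
        _ = 32^k := by rw [← mul_pow]; norm_num
        _ < 100^k := pow_lt_pow_left₀ (by norm_num) (by norm_num) (by omega)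
    have e4 : (10:ℝ)^(2*k) = 100^k := by rw [pow_mul]; norm_num
    rw [e4]
    by_contra hcon
    push Not at hcon
    have e5 : α * 100^k * n ≤ 2 * (n:ℝ)^X.card * n := mul_le_mul_of_nonneg_right hcon hn0.le
    have e6 : (100:ℝ)^k ≤ α * n * 100^k := le_mul_of_one_le_left (by positivity) hαn
    linarith
  · rw [hcY]
    have f1 : 8 * (2 * L^7) * Y.card ≤ 48 * L^13 := by
      calc 8 * (2 * L^7) * Y.card ≤ 8 * (2 * L^7) * (3 * L^6) := Nat.mul_le_mul_left _ hYn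
        _ = 48 * L^13 := by ring
    have f2 : 51 * L^13 ≤ n := hpi.trans hLn
    omega

theorem final (G H : SimpleGraph V) {α : ℝ} (hα : 0 < α) {L : ℕ}
    (hn : Fintype.card V ≤ 2^L) (hL : 10^5 ≤ L) (hLn : L^20 ≤ Fintype.card V)
    (hαn : 1 ≤ α * (Fintype.card V : ℕ))
    (h912 : 2 * (Fintype.card V : ℕ)^2 * (9:ℝ)^(Fintype.card V) < 9 * 12^(Fintype.card V))
    (hG : α * (Fintype.card (SimpleGraph V) : ℕ) ≤
      ((univ.filter (fun K : SimpleGraph V => Emb G K)).card : ℕ))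
    (hH : α * (Fintype.card (SimpleGraph V) : ℕ) ≤
      ((univ.filter (fun K : SimpleGraph V => Emb H K)).card : ℕ)) :
    ∃ σ : Perm V, ∀ a b, H.Adj a b → ¬ G.Adj (σ a) (σ b) := by
  have hpi := pow_ineq hL
  have hL1 : 1 ≤ L := by omega
  have hL13 : 1 ≤ L^13 := Nat.one_le_pow _ _ (by omega)
  have hL6 : L^6 ≤ L^13 := Nat.pow_le_pow_right (by omega) (by norm_num)
  have hn2 : 51 ≤ Fintype.card V := by
    calc 51 = 51 * 1 := by norm_num
      _ ≤ 51 * L^13 := by omega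
      _ ≤ Fintype.card V := hpi.trans hLn
  have hSG := sum_deg_le G hα hn hL1 (by omega) hαn hG
  have hSH := sum_deg_le H hα hn hL1 (by omega) hαn hH
  set X : Finset V := univ.filter (fun v => Fintype.card V / L^5 < G.degree v) with hX
  set Y : Finset V := univ.filter (fun v => Fintype.card V / L^5 < H.degree v) with hY
  have sG := side G H hα hn hL hLn hαn hG hSG hSH hX hY
  have sH := side H G hα hn hL hLn hαn hH hSH hSG hY hX
  obtain ⟨v, hv, u, hu, hXY⟩ := join G H X Y _ _ sG sH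
  obtain ⟨v1, v2, v3, v4, v5⟩ := hv
  obtain ⟨u1, u2, u3, u4, u5⟩ := hu
  have hXc : (X.card : ℝ) ≤ 3 * (L:ℝ)^6 := card_high' G hL1 (by omega) hSG
  have hYc : (Y.card : ℝ) ≤ 3 * (L:ℝ)^6 := card_high' H hL1 (by omega) hSH
  have hXn : X.card ≤ 3 * L^6 := by exact_mod_cast hXc
  have hYn : Y.card ≤ 3 * L^6 := by exact_mod_cast hYc
  have dG := deg_le G hα (by omega) hαn h912 hG
  have dH := deg_le H hα (by omega) hαn h912 hH
  set n := Fintype.card V with hnV
  have hlr : (10:ℝ)^5 ≤ (L:ℝ) := by exact_mod_cast hL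
  have hnr : (L:ℝ)^20 ≤ (n:ℝ) := by exact_mod_cast hLn
  have hl0 : (0:ℝ) < L := by linarith [show (0:ℝ) < 10^5 by norm_num]
  have hn0 : (0:ℝ) < n := lt_of_lt_of_le (by positivity) hnr
  have h2XY : 2 * (X.card + Y.card) ≤ n := by
    have : 51 * L^13 ≤ n := hpi.trans hLn
    omega
  obtain ⟨m1, m2⟩ := M_bounds (by omega : 4 ≤ n) h2XY
  have hδ : (((n / L^5 : ℕ) : ℕ) : ℝ) ≤ n / (L:ℝ)^5 := by
    have := @Nat.cast_div_le ℝ _ _ _ n (L^5)
    push_cast at this
    exact this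
  refine assemble G H (X := X) (Y := Y) (u := fun x => (u x : V)) (v := fun y => (v y : V))
    (fun a b h => u1 (Subtype.ext h)) (fun a b h => v1 (Subtype.ext h)) (fun x => (u x).2)
    (fun y => (v y).2) (δ := n / L^5) (S := 3 * n * L) (M1 := n/2) (M2 := (n:ℝ)^2/8)
    (A := 7 * n / 8) (η := 400 * n / L) (A1 := 40000 * L^2) ?_ ?_ dG dH hSG hSH u2 v2 u3 v3 u4 v4
    u5 v5 hXY (by positivity) m1 (by positivity) m2 (by positivity) (by positivity) ?_ ?_ ?_ ?_
  · intro z hz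
    rw [hX, mem_filter] at hz
    by_contra hcon
    push Not at hcon
    exact hz ⟨mem_univ _, hcon⟩
  · intro z hz
    rw [hY, mem_filter] at hz
    by_contra hcon
    push Not at hcon
    exact hz ⟨mem_univ _, hcon⟩
  · exact num_n1 hlr hnr
  · exact num_n2 hlr hnr (Nat.cast_nonneg _) hδ
  · exact num_n3 hlr hnr
  · exact num_n4 hlr hnr (Nat.cast_nonneg _) hδ hXc hYc

end Pool.Agent.H.MP_d03aa7_co
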